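import Pool.Agent.Lib.MP_9f2731_nt.PL.Rp.Spec

/-!
MP_9f2731_nt, PL/Rp, module Bes: Bessel's inequality for conditional expectations on disjoint blocks.
-/

set_option autoImplicit false

namespace Pool.Agent.Lib.MP_9f2731_nt.PL.Rp

open Finset
open Pool.Agent.Lib.MP_9f2731_nt.GP
open Pool.Agent.Lib.MP_9f2731_nt.GP.Rel
open Pool.Agent.Lib.MP_9f2731_nt.PL
open Pool.Agent.Lib.MP_9f2731_nt.QL (mu)
open Pool.Agent.Lib.MP_9f2731_nt.QL.Rw (AdmW)

namespace BesAux

section lin

variable {α β : Type} [Fintype α] [Fintype β]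

theorem av_add (f g : α → ℝ) : av (fun x => f x + g x) = av f + av g := by
  simp only [av, Finset.sum_add_distrib, add_div]

theorem av_sub (f g : α → ℝ) : av (fun x => f x - g x) = av f - av g := by
  simp only [av, Finset.sum_sub_distrib, sub_div]

theorem av_mul_left (c : ℝ) (g : α → ℝ) : av (fun x => c * g x) = c * av g := by
  simp only [av, ← Finset.mul_sum, mul_div_assoc]

theorem av_mul_right (c : ℝ) (g : α → ℝ) : av (fun x => g x * c) = av g * c := by
  simp only [av, ← Finset.sum_mul, div_mul_eq_mul_div]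

theorem av_const [Nonempty α] (c : ℝ) : av (fun _ : α => c) = c := by
  have h : (Fintype.card α : ℝ) ≠ 0 := by exact_mod_cast Fintype.card_ne_zero
  rw [av, Finset.sum_const, Finset.card_univ, nsmul_eq_mul, mul_div_cancel_left₀ _ h]

theorem av_sum {κ : Type} (s : Finset κ) (f : κ → α → ℝ) :
    av (fun x => ∑ i ∈ s, f i x) = ∑ i ∈ s, av (f i) := by
  simp only [av]
  rw [Finset.sum_comm, Finset.sum_div]

theorem av_av (K : α → β → ℝ) :
    av (fun y => av (fun x => K y x)) = av (fun z : α × β => K z.1 z.2) := by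
  simp only [av, Fintype.sum_prod_type, Fintype.card_prod, Nat.cast_mul]
  rw [← Finset.sum_div, div_div, mul_comm]

theorem av_equiv (e : α ≃ β) (f : β → ℝ) : av (fun x => f (e x)) = av f := by
  simp only [av, Equiv.sum_comp, Fintype.card_congr e]

theorem av_nonneg {f : α → ℝ} (h : ∀ x, 0 ≤ f x) : 0 ≤ av f :=
  div_nonneg (Finset.sum_nonneg fun x _ => h x) (Nat.cast_nonneg _)

theorem av_mono {f g : α → ℝ} (h : ∀ x, f x ≤ g x) : av f ≤ av g :=
  div_le_div_of_nonneg_right (Finset.sum_le_sum fun x _ => h x) (Nat.cast_nonneg _)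

end lin

section mixs

variable {ι V : Type} [DecidableEq ι]

/-- the coordinates in `B` from `y`, the others from `x` -/
def mix (B : Finset ι) (y x : ι → V) : ι → V := fun i => if i ∈ B then y i else x i

theorem mix_mix (B : Finset ι) (y x x' : ι → V) : mix B (mix B y x) x' = mix B y x' := by
  funext i
  by_cases h : i ∈ B
  · simp [mix, h]
  · simp [mix, h]

theorem mix_dis {B B' : Finset ι} (h : Disjoint B B') (y x x' : ι → V) :
    mix B' (mix B y x) x' = mix B' x x' := by
  funext i
  by_cases h1 : i ∈ B'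
  · have h2 : i ∉ B := fun h3 => Finset.disjoint_left.1 h h3 h1
    simp [mix, h1, h2]
  · simp [mix, h1]

/-- the exchange of pairs -/
def swp (B : Finset ι) (z : (ι → V) × (ι → V)) : (ι → V) × (ι → V) :=
  (mix B z.1 z.2, mix B z.2 z.1)

theorem swp_invol (B : Finset ι) : Function.Involutive (swp B (V := V)) := by
  rintro ⟨y, x⟩
  refine Prod.ext ?_ ?_
  · funext i
    by_cases h : i ∈ B
    · simp [swp, mix, h]
    · simp [swp, mix, h]
  · funext i
    by_cases h : i ∈ B
    · simp [swp, mix, h]
    · simp [swp, mix, h]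

variable [Fintype ι] [Fintype V]

theorem av_swp (B : Finset ι) (K : (ι → V) → (ι → V) → ℝ) :
    av (fun y : ι → V => av (fun x : ι → V => K (mix B y x) (mix B x y))) =
      av (fun y : ι → V => av (fun x : ι → V => K y x)) := by
  rw [av_av, av_av]
  exact av_equiv (swp_invol B).toPerm (fun z : (ι → V) × (ι → V) => K z.1 z.2)

theorem av_mix [Nonempty V] (B : Finset ι) (H : (ι → V) → ℝ) :
    av (fun y : ι → V => av (fun x : ι → V => H (mix B y x))) = av H := by
  rw [av_swp B (fun y _ => H y)]
  simp only [av_const]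

end mixs

end BesAux

open BesAux in
/-- Bessel's inequality -/
theorem pBes : BesStmt := by
  intro ι V _ _ _ _ M B hB F hF
  set F0 : (ι → V) → ℝ := fun x => F x - av F with hF0
  set g : Fin M → (ι → V) → ℝ := fun b y => av (fun x : ι → V => F0 (mix (B b) y x)) with hg
  have hF01 : av F0 = 0 := by
    rw [hF0, av_sub, av_const, sub_self]
  have hgF : ∀ b (y : ι → V), (av (fun x : ι → V => F (fun i => if i ∈ B b then y i else x i)) - av F) =
      g b y := by
    intro b y
    rw [hg, hF0]
    simp only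
    rw [av_sub, av_const]
    rfl
  have hg1 : ∀ b (y x : ι → V), g b (mix (B b) y x) = g b y := by
    intro b y x
    simp only [hg, mix_mix]
  have hg2 : ∀ b b', b ≠ b' → ∀ y x : ι → V, g b' (mix (B b) y x) = g b' x := by
    intro b b' hbb y x
    simp only [hg, mix_dis (hB b b' hbb)]
  have hg0 : ∀ b, av (g b) = 0 := fun b => (av_mix (B b) F0).trans hF01
  have hFg : ∀ b, av (fun x => F0 x * g b x) = av (fun x => g b x ^ 2) := by
    intro b
    rw [← av_mix (B b) (fun x => F0 x * g b x)]
    congr 1
    funext y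
    simp only [hg1]
    rw [av_mul_right, pow_two]
  have hgg : ∀ b b', b ≠ b' → av (fun x => g b x * g b' x) = 0 := by
    intro b b' hbb
    rw [← av_mix (B b) (fun x => g b x * g b' x)]
    have h1 : ∀ y : ι → V, av (fun x : ι → V => g b (mix (B b) y x) * g b' (mix (B b) y x)) = 0 := by
      intro y
      simp only [hg1, hg2 b b' hbb]
      rw [av_mul_left, hg0, mul_zero]
    simp only [h1]
    rw [av_const]
  have hkey : 0 ≤ av (fun x => (F0 x - ∑ b, g b x) ^ 2) := av_nonneg fun x => sq_nonneg _
  have hexp : av (fun x => (F0 x - ∑ b, g b x) ^ 2) =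
      av (fun x => F0 x ^ 2) - ∑ b, av (fun x => g b x ^ 2) := by
    have h1 : ∀ x : ι → V, (F0 x - ∑ b, g b x) ^ 2 =
        F0 x ^ 2 - 2 * (∑ b, F0 x * g b x) + ∑ b, ∑ b', g b x * g b' x := by
      intro x
      rw [← Finset.mul_sum, ← Finset.sum_mul_sum]
      ring
    simp only [h1]
    rw [av_add, av_sub, av_mul_left, av_sum, av_sum]
    have h2 : ∀ b, av (fun x => ∑ b', g b x * g b' x) = av (fun x => g b x ^ 2) := by
      intro b
      rw [av_sum, Finset.sum_eq_single b]
      · congr 1
        funext x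
        rw [pow_two]
      · intro b' _ hb'
        exact hgg b b' (Ne.symm hb')
      · intro h
        exact absurd (Finset.mem_univ b) h
    rw [Finset.sum_congr rfl fun b _ => hFg b, Finset.sum_congr rfl fun b _ => h2 b]
    ring
  have hav0 : 0 ≤ av F := av_nonneg fun x => (hF x).1
  have hav1 : av F ≤ 1 := (av_mono fun x => (hF x).2).trans_eq (av_const 1)
  have hle : av (fun x => F0 x ^ 2) ≤ 1 := by
    refine (av_mono (g := fun _ => (1 : ℝ)) fun x => ?_).trans_eq (av_const 1)
    have h1 := hF x
    rw [hF0]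
    simp only
    rw [sq_le_one_iff_abs_le_one, abs_le]
    constructor
    · linarith
    · linarith
  have hfin : ∑ b, av (fun y : ι → V =>
      (av (fun x : ι → V => F (fun i => if i ∈ B b then y i else x i)) - av F) ^ 2) =
      ∑ b, av (fun x => g b x ^ 2) := by
    refine Finset.sum_congr rfl fun b _ => ?_
    simp only [hgF]
  rw [hfin]
  linarith

end Pool.Agent.Lib.MP_9f2731_nt.PL.Rp
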