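import Pool.Agent.Lib.MP_9f2731_nt.PL.Rp.Spec
import Pool.Agent.Lib.MP_9f2731_nt.GP.Rel.Mrg

/-!
MP_9f2731_nt, PL/Rp: Bessel's inequality for the substitutions (module Bsx).
-/

namespace Pool.Agent.Lib.MP_9f2731_nt.PL.Rp

open Finset
open Pool.Agent.Lib.MP_9f2731_nt.GP
open Pool.Agent.Lib.MP_9f2731_nt.GP.Rel
open Pool.Agent.Lib.MP_9f2731_nt.PL
open Pool.Agent.Lib.MP_9f2731_nt.QL (mu)
open Pool.Agent.Lib.MP_9f2731_nt.QL.Rw (AdmW)

namespace BsxAux

/-- means are preserved by bijections -/
theorem av_equiv {α β : Type} [Fintype α] [Fintype β] (e : α ≃ β) (g : β → ℝ) :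
    av (fun x => g (e x)) = av g := by
  unfold av
  rw [Equiv.sum_comp e g, Fintype.card_congr e]

/-- the variables as functions on the set of all indices -/
def cur (I J L V : Type) : (I × J × L → V) ≃ (I → J → L → V) where
  toFun X := fun i t p => X (i, t, p)
  invFun x := fun q => x q.1 q.2.1 q.2.2
  left_inv _ := rfl
  right_inv _ := rfl

theorem ds_lt {k : ℕ} (i j : Fin k) : ds i j < k := by
  have hi := i.2
  have hj := j.2
  unfold ds
  omega

theorem ds_pos {k : ℕ} {i j : Fin k} (h : i ≠ j) : 1 ≤ ds i j := by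
  have h1 : (i : ℕ) ≠ (j : ℕ) := fun h2 => h (Fin.ext h2)
  unfold ds
  omega

/-- the index of the component which is replaced -/
def loc {k K M : ℕ} (hK : 1 ≤ K) (b : Fin M) (j i : Fin k) : Fin k × Fin K × (Fin k × Fin M) :=
  (i, ⟨0, hK⟩, (⟨ds i j - 1, lt_of_le_of_lt (Nat.sub_le _ _) (ds_lt i j)⟩, b))

theorem loc_inj {k K M : ℕ} (hK : 1 ≤ K) (b : Fin M) (j : Fin k) :
    Function.Injective (loc (K := K) hK b j) := fun _ _ h => congrArg Prod.fst h

theorem loc_eq {k K M : ℕ} (hK : 1 ≤ K) {b : Fin M} {j i : Fin k} {t : Fin K} {p : Fin k × Fin M}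
    (h : Rep b j i t p) : loc hK b j i = (i, t, p) := by
  obtain ⟨h1, h2, h3, h4⟩ := h
  obtain ⟨c, b'⟩ := p
  have h5 := ds_pos h1
  refine Prod.ext rfl (Prod.ext (Fin.ext ?_) (Prod.ext (Fin.ext ?_) ?_))
  · exact h2.symm
  · change ds i j - 1 = (c : ℕ)
    have h6 : (c : ℕ) + 1 = ds i j := h4
    omega
  · exact h3.symm

/-- the index of the narrow variable -/
def nar {k : ℕ} (j i : Fin k) : Fin (k + k) := if j < i then Fin.castAdd k i else Fin.natAdd k i

theorem nar_inj {k : ℕ} (j : Fin k) : Function.Injective (nar j) := by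
  intro i i' h
  have hi := i.2
  have hi' := i'.2
  have h1 := congrArg Fin.val h
  unfold nar at h1
  apply Fin.ext
  split_ifs at h1 with h2 h3 h3
  · simpa using h1
  · simp only [Fin.val_castAdd, Fin.val_natAdd] at h1
    omega
  · simp only [Fin.val_castAdd, Fin.val_natAdd] at h1
    omega
  · simpa using h1

end BsxAux

open BsxAux in
theorem pBsx (h1 : BesStmt) : BsxStmt := by
  classical
  intro k K M G _ Y hK hY j F hF
  have : Nonempty Y := hY.to_subtype
  -- the function with fixed values of the replaced components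
  have hB := h1 (Fin k × Fin K × (Fin k × Fin M)) Y M
    (fun b => univ.filter fun q => Rep b j q.1 q.2.1 q.2.2)
    (by
      intro b b' hb
      rw [Finset.disjoint_left]
      intro q hq hq'
      rw [Finset.mem_filter] at hq hq'
      exact hb (hq.2.2.2.1.symm.trans hq'.2.2.2.1))
    (fun X => F (cur _ _ _ _ X)) (fun X => hF _)
  refine le_of_eq_of_le (Finset.sum_congr rfl fun b _ => ?_) hB
  -- the function of the values
  let Ψ : (Fin k → Y) → ℝ := fun u => (av (fun x : Fin k → Fin K → Wd k M Y =>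
    F (fun i t p => if Rep b j i t p then u i else x i t p)) - av F) ^ 2
  have e1 : av (fun y : Fin (k + k) → Y =>
      (av (fun x : Fin k → Fin K → Wd k M Y => F (sbx b j y x)) - av F) ^ 2) = av Ψ := by
    rw [← pMrg (Fin k) (Fin (k + k)) Y (nar j) (nar_inj j) Ψ]
    congr 1
    funext y
    change _ = (av (fun x : Fin k → Fin K → Wd k M Y =>
      F (fun i t p => if Rep b j i t p then y (nar j i) else x i t p)) - av F) ^ 2
    congr 3
    funext x
    congr 1
    funext i t p
    unfold sbx nar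
    split_ifs <;> rfl
  have e2 : av (fun Z : Fin k × Fin K × (Fin k × Fin M) → Y =>
      (av (fun X : Fin k × Fin K × (Fin k × Fin M) → Y => F (cur _ _ _ _ (fun q =>
        if q ∈ (univ.filter fun q : Fin k × Fin K × (Fin k × Fin M) => Rep b j q.1 q.2.1 q.2.2)
        then Z q else X q))) - av (fun X => F (cur _ _ _ _ X))) ^ 2) = av Ψ := by
    rw [← pMrg (Fin k) (Fin k × Fin K × (Fin k × Fin M)) Y (loc hK b j) (loc_inj hK b j) Ψ]
    congr 1
    funext Z
    change _ = (av (fun x : Fin k → Fin K → Wd k M Y =>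
      F (fun i t p => if Rep b j i t p then Z (loc hK b j i) else x i t p)) - av F) ^ 2
    rw [av_equiv (cur (Fin k) (Fin K) (Fin k × Fin M) Y) F,
      ← av_equiv (cur (Fin k) (Fin K) (Fin k × Fin M) Y) (fun x : Fin k → Fin K → Wd k M Y =>
      F (fun i t p => if Rep b j i t p then Z (loc hK b j i) else x i t p))]
    congr 3
    funext X
    congr 1
    funext i t p
    change (if (i, t, p) ∈ (univ.filter fun q : Fin k × Fin K × (Fin k × Fin M) =>
      Rep b j q.1 q.2.1 q.2.2) then Z (i, t, p) else X (i, t, p)) =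
      if Rep b j i t p then Z (loc hK b j i) else X (i, t, p)
    by_cases h : Rep b j i t p
    · rw [if_pos h, if_pos (by rw [Finset.mem_filter]; exact ⟨Finset.mem_univ _, h⟩), loc_eq hK h]
    · rw [if_neg h, if_neg (by rw [Finset.mem_filter]; exact fun h2 => h h2.2)]
  rw [e1, ← e2]

end Pool.Agent.Lib.MP_9f2731_nt.PL.Rp
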