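import Pool.Agent.Lib.MP_9f2731_nt.PL.Rp.Spec

/-!
PL/Rp/Fsb: the forms after the substitution.
-/

namespace Pool.Agent.Lib.MP_9f2731_nt.PL.Rp

open Finset
open Pool.Agent.Lib.MP_9f2731_nt.GP
open Pool.Agent.Lib.MP_9f2731_nt.GP.Rel
open Pool.Agent.Lib.MP_9f2731_nt.PL
open Pool.Agent.Lib.MP_9f2731_nt.QL (mu)
open Pool.Agent.Lib.MP_9f2731_nt.QL.Rw (AdmW)

namespace FsbAux

variable {G : Type} [AddCommGroup G]

/-- the element which is substituted at the vertex i -/
private def yel {Y : Finset G} {k : ℕ} (j : Fin k) (y : Fin (k + k) → Y) (i : Fin k) : G :=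
  if j < i then ((y (Fin.castAdd k i) : Y) : G) else ((y (Fin.natAdd k i) : Y) : G)

private theorem ds_pos {k : ℕ} {i j : Fin k} (h : i ≠ j) : 1 ≤ ds i j := by
  have h1 : (i : ℕ) ≠ (j : ℕ) := fun h2 => h (Fin.ext h2)
  unfold ds
  omega

private theorem ds_lt {k : ℕ} (i j : Fin k) : ds i j < k := by
  have h1 := i.2
  have h2 := j.2
  unfold ds
  omega

/-- the contribution of the replaced components at one vertex -/
private theorem one {Y : Finset G} {k K M : ℕ} (m : ℕ) (hK : 1 ≤ K) (b : Fin M) (j : Fin k)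
    (y : Fin (k + k) → Y) (i : Fin k) (D : ℕ) (hij : i ≠ j) :
    (∑ t : Fin K, if (t : ℕ) < mu k m i then
      ∑ p : Fin k × Fin M, (if Rep b j i t p then (D / ((p.1 : ℕ) + 1)) • yel j y i else 0) else 0) =
      (D / ds i j) • yel j y i := by
  have hd := ds_pos hij
  have hl := ds_lt i j
  have hmu : 0 < mu k m i := by
    unfold mu
    split_ifs <;> omega
  rw [Finset.sum_eq_single (⟨0, hK⟩ : Fin K)]
  · rw [if_pos hmu]
    rw [Finset.sum_eq_single ((⟨ds i j - 1, by omega⟩ : Fin k), b)]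
    · have h1 : Rep b j i (⟨0, hK⟩ : Fin K) ((⟨ds i j - 1, by omega⟩ : Fin k), b) :=
        ⟨hij, rfl, rfl, by change ds i j - 1 + 1 = ds i j; omega⟩
      rw [if_pos h1]
      have h2 : ((⟨ds i j - 1, by omega⟩ : Fin k) : ℕ) + 1 = ds i j := by
        change ds i j - 1 + 1 = ds i j
        omega
      rw [h2]
    · intro p _ hp
      rw [if_neg]
      rintro ⟨-, -, h3, h4⟩
      apply hp
      refine Prod.ext (Fin.ext ?_) h3
      change (p.1 : ℕ) = ds i j - 1
      omega
    · intro h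
      exact absurd (Finset.mem_univ _) h
  · intro t _ ht
    split_ifs with h1
    · refine Finset.sum_eq_zero fun p _ => ?_
      rw [if_neg]
      rintro ⟨-, h2, -, -⟩
      exact ht (Fin.ext h2)
    · rfl
  · intro h
    exact absurd (Finset.mem_univ _) h

/-- the contribution of one vertex, with its coefficient -/
private theorem two {Y : Finset G} {k K M : ℕ} (m : ℕ) (hK : 1 ≤ K) (b : Fin M) (j : Fin k)
    (y : Fin (k + k) → Y) (i : Fin k) :
    (((i : ℕ) : ℤ) - ((j : ℕ) : ℤ)) • (∑ t : Fin K, if (t : ℕ) < mu k m i then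
      ∑ p : Fin k × Fin M, (if Rep b j i t p then
        (k.factorial / ((p.1 : ℕ) + 1)) • yel j y i else 0) else 0) =
      (if j < i then k.factorial • ((y (Fin.castAdd k i) : Y) : G) else 0) -
        (if i < j then k.factorial • ((y (Fin.natAdd k i) : Y) : G) else 0) := by
  rcases lt_trichotomy i j with h | h | h
  · have hij : i ≠ j := h.ne
    rw [one m hK b j y i _ hij, if_neg (not_lt.2 h.le), if_pos h, zero_sub]
    have h1 : ((i : ℕ) : ℤ) - ((j : ℕ) : ℤ) = -((ds i j : ℕ) : ℤ) := by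
      have h2 : (i : ℕ) < (j : ℕ) := h
      unfold ds
      omega
    have h3 : ds i j * (k.factorial / ds i j) = k.factorial :=
      Nat.mul_div_cancel' (Nat.dvd_factorial (ds_pos hij) (ds_lt i j).le)
    rw [h1, neg_smul, natCast_zsmul, smul_smul, h3, yel, if_neg (not_lt.2 h.le)]
  · subst h
    rw [sub_self, zero_smul, if_neg (lt_irrefl _), if_neg (lt_irrefl _), sub_zero]
  · have hij : i ≠ j := h.ne'
    rw [one m hK b j y i _ hij, if_pos h, if_neg (not_lt.2 h.le), sub_zero]
    have h1 : ((i : ℕ) : ℤ) - ((j : ℕ) : ℤ) = ((ds i j : ℕ) : ℤ) := by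
      have h2 : (j : ℕ) < (i : ℕ) := h
      unfold ds
      omega
    have h3 : ds i j * (k.factorial / ds i j) = k.factorial :=
      Nat.mul_div_cancel' (Nat.dvd_factorial (ds_pos hij) (ds_lt i j).le)
    rw [h1, natCast_zsmul, smul_smul, h3, yel, if_pos h]

/-- the splitting of the form -/
private theorem frE_eq {Y : Finset G} {k K M : ℕ} (m : ℕ) (b : Fin M) (j : Fin k)
    (y : Fin (k + k) → Y) (x : Fin k → Fin K → Wd k M Y) (D : ℕ) :
    frE (fun ξ : Wd k M Y => vw D ξ) m j (sbx b j y x) = fr0 D m b j x +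
      ∑ i : Fin k, (((i : ℕ) : ℤ) - ((j : ℕ) : ℤ)) • (∑ t : Fin K, if (t : ℕ) < mu k m i then
        ∑ p : Fin k × Fin M, (if Rep b j i t p then
          (D / ((p.1 : ℕ) + 1)) • yel j y i else 0) else 0) := by
  rw [frE, fr0, ← Finset.sum_add_distrib]
  refine Finset.sum_congr rfl fun i _ => ?_
  rw [← smul_add, incE, ← Finset.sum_add_distrib]
  congr 1
  refine Finset.sum_congr rfl fun t _ => ?_
  by_cases ht : (t : ℕ) < mu k m i
  · rw [if_pos ht, if_pos ht, if_pos ht, vw, ← Finset.sum_add_distrib]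
    refine Finset.sum_congr rfl fun p _ => ?_
    rw [sbx]
    by_cases hR : Rep b j i t p
    · rw [if_pos hR, if_pos hR, if_pos hR, zero_add, yel]
      by_cases hj : j < i
      · rw [if_pos hj, if_pos hj]
      · rw [if_neg hj, if_neg hj]
    · rw [if_neg hR, if_neg hR, if_neg hR, add_zero]
  · rw [if_neg ht, if_neg ht, if_neg ht, add_zero]

end FsbAux

open FsbAux in
/-- The forms after the substitution. -/
theorem pFsb : FsbStmt := by
  intro k K M m G _ Y hK b j y x e
  rw [frE_eq]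
  have h1 : ∑ i : Fin k, (((i : ℕ) : ℤ) - ((j : ℕ) : ℤ)) • (∑ t : Fin K,
      if (t : ℕ) < mu k m i then ∑ p : Fin k × Fin M, (if Rep b j i t p then
        (k.factorial / ((p.1 : ℕ) + 1)) • yel j y i else 0) else 0) =
      (∑ i : Fin k, if j < i then k.factorial • ((y (Fin.castAdd k i) : Y) : G) else 0) -
        ∑ i : Fin k, if i < j then k.factorial • ((y (Fin.natAdd k i) : Y) : G) else 0 := by
    rw [← Finset.sum_sub_distrib]
    exact Finset.sum_congr rfl fun i _ => two m hK b j y i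
  rw [h1, Fin.sum_univ_add]
  have h2 : ∑ i : Fin k, cf k k.factorial (Fin.castAdd k i) • ((y (Fin.castAdd k i) : Y) : G) =
      ∑ i : Fin k, k.factorial • ((y (Fin.castAdd k i) : Y) : G) := by
    refine Finset.sum_congr rfl fun i _ => ?_
    rw [cf, if_pos (show ((Fin.castAdd k i : Fin (k + k)) : ℕ) < k from i.2), natCast_zsmul]
  have h3 : ∑ i : Fin k, cf k k.factorial (Fin.natAdd k i) • ((y (Fin.natAdd k i) : Y) : G) =
      -∑ i : Fin k, k.factorial • ((y (Fin.natAdd k i) : Y) : G) := by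
    rw [← Finset.sum_neg_distrib]
    refine Finset.sum_congr rfl fun i _ => ?_
    rw [cf, if_neg (show ¬ ((Fin.natAdd k i : Fin (k + k)) : ℕ) < k from by
      rw [Fin.val_natAdd]; omega), neg_smul, natCast_zsmul]
  have h4 : ∑ i : Fin k, k.factorial • ((y (Fin.castAdd k i) : Y) : G) =
      (∑ i : Fin k, if i ≤ j then k.factorial • ((y (Fin.castAdd k i) : Y) : G) else 0) +
        ∑ i : Fin k, if j < i then k.factorial • ((y (Fin.castAdd k i) : Y) : G) else 0 := by
    rw [← Finset.sum_add_distrib]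
    refine Finset.sum_congr rfl fun i _ => ?_
    by_cases h5 : i ≤ j
    · rw [if_pos h5, if_neg (not_lt.2 h5), add_zero]
    · rw [if_neg h5, if_pos (not_le.1 h5), zero_add]
  have h5 : ∑ i : Fin k, k.factorial • ((y (Fin.natAdd k i) : Y) : G) =
      (∑ i : Fin k, if j ≤ i then k.factorial • ((y (Fin.natAdd k i) : Y) : G) else 0) +
        ∑ i : Fin k, if i < j then k.factorial • ((y (Fin.natAdd k i) : Y) : G) else 0 := by
    rw [← Finset.sum_add_distrib]
    refine Finset.sum_congr rfl fun i _ => ?_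
    by_cases h6 : j ≤ i
    · rw [if_pos h6, if_neg (not_lt.2 h6), add_zero]
    · rw [if_neg h6, if_pos (not_le.1 h6), zero_add]
  rw [h2, h3, h4, h5, bs, Finset.smul_sum, Finset.smul_sum, Finset.sum_filter, Finset.sum_filter]
  abel

end Pool.Agent.Lib.MP_9f2731_nt.PL.Rp
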