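import Pool.Agent.Lib.MP_9f2731_nt.PL.Rp.Spec

/-!
MP_9f2731_nt, PL/Rp, module Pd (helper14): products of test functions.
-/

namespace Pool.Agent.Lib.MP_9f2731_nt.PL.Rp

open Finset
open Pool.Agent.Lib.MP_9f2731_nt.GP
open Pool.Agent.Lib.MP_9f2731_nt.GP.Rel
open Pool.Agent.Lib.MP_9f2731_nt.PL
open Pool.Agent.Lib.MP_9f2731_nt.QL (mu)
open Pool.Agent.Lib.MP_9f2731_nt.QL.Rw (AdmW)

namespace PdAux

theorem av_nonneg {α : Type} [Fintype α] {f : α → ℝ} (h : ∀ x, 0 ≤ f x) : 0 ≤ av f := by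
  unfold av
  exact div_nonneg (Finset.sum_nonneg fun x _ => h x) (by positivity)

theorem av_mono {α : Type} [Fintype α] {f g : α → ℝ} (h : ∀ x, f x ≤ g x) : av f ≤ av g := by
  unfold av
  exact div_le_div_of_nonneg_right (Finset.sum_le_sum fun x _ => h x) (by positivity)

theorem av_le_one {α : Type} [Fintype α] {f : α → ℝ} (h : ∀ x, f x ≤ 1) : av f ≤ 1 := by
  unfold av
  refine div_le_one_of_le₀ ?_ (by positivity)
  refine (Finset.sum_le_sum fun x _ => h x).trans ?_
  simp

theorem av_add {α : Type} [Fintype α] (f g : α → ℝ) :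
    av (fun x => f x + g x) = av f + av g := by
  unfold av
  rw [Finset.sum_add_distrib, add_div]

theorem av_zero {α : Type} [Fintype α] : av (fun _ : α => (0 : ℝ)) = 0 := by
  unfold av
  simp

theorem av_mul_right {α : Type} [Fintype α] (c : ℝ) (g : α → ℝ) :
    av (fun x => g x * c) = av g * c := by
  unfold av
  rw [← Finset.sum_mul, div_mul_eq_mul_div]

theorem av_mul_left {α : Type} [Fintype α] (c : ℝ) (g : α → ℝ) :
    av (fun x => c * g x) = c * av g := by
  unfold av
  rw [← Finset.mul_sum, mul_div_assoc]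

theorem av_sum {α ι : Type} [Fintype α] (s : Finset ι) (f : ι → α → ℝ) :
    ∑ i ∈ s, av (f i) = av (fun x => ∑ i ∈ s, f i x) := by
  unfold av
  rw [← Finset.sum_div, Finset.sum_comm]

theorem abs_av_le {α : Type} [Fintype α] (f : α → ℝ) : |av f| ≤ av (fun x => |f x|) := by
  unfold av
  rw [abs_div, Nat.abs_cast]
  exact div_le_div_of_nonneg_right (Finset.abs_sum_le_sum_abs _ _) (by positivity)

theorem av_const {α : Type} [Fintype α] [Nonempty α] (c : ℝ) : av (fun _ : α => c) = c := by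
  unfold av
  rw [Finset.sum_const, Finset.card_univ, nsmul_eq_mul]
  field_simp

/-- translation in the group, with a second variable -/
theorem av_shift2 {G T : Type} [AddCommGroup G] [Fintype G] [Fintype T] (s : T → G)
    (F : G → T → ℝ) : av (fun z : G × T => F (z.1 + s z.2) z.2) =
      av (fun g : G => av (fun t : T => F g t)) := by
  unfold av
  have h1 : ∑ z : G × T, F (z.1 + s z.2) z.2 = ∑ x, ∑ t, F x t := by
    rw [Fintype.sum_prod_type_right, Finset.sum_comm (s := (univ : Finset G))]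
    refine Finset.sum_congr rfl fun t _ => ?_
    exact Fintype.sum_equiv (Equiv.addRight (s t)) _ _ (fun x => rfl)
  rw [h1, Fintype.card_prod, Nat.cast_mul, ← Finset.sum_div, div_div,
    mul_comm (Fintype.card G : ℝ)]

/-- translation in the group -/
theorem av_shift {G T : Type} [AddCommGroup G] [Fintype G] [Fintype T] [Nonempty T] (s : T → G)
    (F : G → ℝ) : av (fun z : G × T => F (z.1 + s z.2)) = av F := by
  rw [av_shift2 s (fun g _ => F g)]
  simp only [av_const]

/-- the square of a mean -/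
theorem av_sq {α : Type} [Fintype α] (f : α → ℝ) : (av f) ^ 2 ≤ av (fun x => f x ^ 2) := by
  rcases isEmpty_or_nonempty α with h | h
  · unfold av
    simp
  · have h0 : (0 : ℝ) < (Fintype.card α : ℝ) := Nat.cast_pos.2 Fintype.card_pos
    have h1 : (∑ x, f x) ^ 2 ≤ (Fintype.card α : ℝ) * ∑ x, f x ^ 2 := by
      have := sq_sum_le_card_mul_sum_sq (s := (univ : Finset α)) (f := f)
      rwa [Finset.card_univ] at this
    unfold av
    rw [div_pow, div_le_div_iff₀ (by positivity) h0]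
    nlinarith [mul_le_mul_of_nonneg_right h1 h0.le]

theorem prod01 {α : Type} (L : List α) (a : α → ℝ) (ha : ∀ l ∈ L, 0 ≤ a l ∧ a l ≤ 1) :
    0 ≤ (L.map a).prod ∧ (L.map a).prod ≤ 1 := by
  induction L with
  | nil => simp
  | cons l L ih =>
    obtain ⟨h1, h2⟩ := ih (fun m hm => ha m (List.mem_cons_of_mem _ hm))
    obtain ⟨h3, h4⟩ := ha l List.mem_cons_self
    rw [List.map_cons, List.prod_cons]
    exact ⟨mul_nonneg h3 h1, mul_le_one₀ h4 h1 h2⟩

theorem prod_diff {α : Type} (L : List α) (a b : α → ℝ)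
    (ha : ∀ l ∈ L, 0 ≤ a l ∧ a l ≤ 1) (hb : ∀ l ∈ L, 0 ≤ b l ∧ b l ≤ 1) :
    |(L.map a).prod - (L.map b).prod| ≤ (L.map (fun l => |a l - b l|)).sum := by
  induction L with
  | nil => simp
  | cons l L ih =>
    have ha' := fun m (hm : m ∈ L) => ha m (List.mem_cons_of_mem l hm)
    have hb' := fun m (hm : m ∈ L) => hb m (List.mem_cons_of_mem l hm)
    have h0 := ih ha' hb'
    have h1 := prod01 L a ha'
    obtain ⟨h3, h4⟩ := hb l List.mem_cons_self
    rw [List.map_cons, List.prod_cons, List.map_cons, List.prod_cons, List.map_cons, List.sum_cons]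
    have e : a l * (L.map a).prod - b l * (L.map b).prod =
        (a l - b l) * (L.map a).prod + b l * ((L.map a).prod - (L.map b).prod) := by ring
    rw [e]
    refine (abs_add_le _ _).trans ?_
    rw [abs_mul, abs_mul, abs_of_nonneg h1.1, abs_of_nonneg h3]
    have h6 : |a l - b l| * (L.map a).prod ≤ |a l - b l| :=
      mul_le_of_le_one_right (abs_nonneg _) h1.2
    have h7 : b l * |(L.map a).prod - (L.map b).prod| ≤ (L.map (fun l => |a l - b l|)).sum :=
      (mul_le_of_le_one_left (abs_nonneg _) h4).trans h0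
    linarith

theorem av_list {α β : Type} [Fintype α] (L : List β) (w : α → ℝ) (f : β → α → ℝ) :
    av (fun x => w x * (L.map (fun l => f l x)).sum) =
      (L.map (fun l => av (fun x => w x * f l x))).sum := by
  induction L with
  | nil => simp [av_zero]
  | cons l L ih =>
    simp only [List.map_cons, List.sum_cons, mul_add]
    rw [av_add, ih]

theorem sum_list {β ι : Type} (s : Finset ι) (L : List β) (f : ι → β → ℝ) (C : ℝ)
    (h : ∀ l ∈ L, ∑ i ∈ s, f i l ≤ C) :
    ∑ i ∈ s, (L.map (f i)).sum ≤ L.length * C := by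
  induction L with
  | nil => simp
  | cons l L ih =>
    have h0 := ih (fun m hm => h m (List.mem_cons_of_mem l hm))
    have h1 := h l List.mem_cons_self
    simp only [List.map_cons, List.sum_cons]
    rw [Finset.sum_add_distrib, List.length_cons]
    push_cast
    linarith

/-- Cauchy-Schwarz for the blocks -/
theorem blocks {T : Type} [Fintype T] (M : ℕ) (D : Fin M → T → ℝ)
    (h : ∑ b, av (fun t => D b t ^ 2) ≤ 1) : ∑ b, av (fun t => |D b t|) ≤ Real.sqrt M := by
  refine Real.le_sqrt_of_sq_le ?_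
  have h1 : (∑ b, av (fun t => |D b t|)) ^ 2 ≤ (M : ℝ) * ∑ b, (av (fun t => |D b t|)) ^ 2 := by
    have := sq_sum_le_card_mul_sum_sq (s := (univ : Finset (Fin M)))
      (f := fun b => av (fun t => |D b t|))
    rwa [Finset.card_univ, Fintype.card_fin] at this
  have h2 : ∑ b, (av (fun t => |D b t|)) ^ 2 ≤ 1 := by
    refine (Finset.sum_le_sum fun b _ => ?_).trans h
    refine (av_sq _).trans (le_of_eq ?_)
    congr 1
    funext t
    exact sq_abs _
  calc _ ≤ (M : ℝ) * ∑ b, (av (fun t => |D b t|)) ^ 2 := h1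
    _ ≤ (M : ℝ) * 1 := mul_le_mul_of_nonneg_left h2 (Nat.cast_nonneg M)
    _ = M := mul_one _

/-- The error of one test function, summed over the blocks. -/
theorem one (h1 : BsxStmt) (h2 : FsbStmt) {k K M : ℕ} {G : Type} [AddCommGroup G] [Fintype G]
    {Y : Finset G} (hK : 1 ≤ K) (hY : Y.Nonempty) (w : G → ℝ) (hw : ∀ z, 0 ≤ w z) (m : ℕ) (j : Fin k)
    (h : Fin k → G → (Fin k → Fin K → Wd k M Y) → ℝ) (hh : AdmW h) :
    ∑ b : Fin M, av (fun z : G × (Fin (k + k) → Y) =>
      w (z.1 + ∑ a, cf k k.factorial a • ((z.2 a : Y) : G)) *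
        |tstE (fun ξ : Wd k M Y => vw k.factorial ξ) m j h
          (z.1 + ∑ a, cf k k.factorial a • ((z.2 a : Y) : G)) - tsb m b j h z.1 z.2|) ≤
      av w * Real.sqrt M := by
  have : Nonempty Y := hY.to_subtype
  set F : G → (Fin k → Fin K → Wd k M Y) → ℝ := fun z x =>
    ∏ i ∈ univ.erase j, h i (z - frE (fun ξ : Wd k M Y => vw k.factorial ξ) m j x) x with hF
  have hF01 : ∀ z x, 0 ≤ F z x ∧ F z x ≤ 1 := fun z x =>
    ⟨Finset.prod_nonneg fun i _ => ((hh i _).2 x).1,
      Finset.prod_le_one (fun i _ => ((hh i _).2 x).1) (fun i _ => ((hh i _).2 x).2)⟩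
  have e1 : ∀ (b : Fin M) (z : G × (Fin (k + k) → Y)), tsb m b j h z.1 z.2 =
      av (fun x : Fin k → Fin K → Wd k M Y =>
        F (z.1 + ∑ a, cf k k.factorial a • ((z.2 a : Y) : G)) (sbx b j z.2 x)) := by
    intro b z
    unfold tsb
    congr 1
    funext x
    rw [hF]
    simp only
    rw [h2 k K M m G Y hK b j z.2 x z.1]
  have e2 : ∀ b : Fin M, av (fun z : G × (Fin (k + k) → Y) =>
      w (z.1 + ∑ a, cf k k.factorial a • ((z.2 a : Y) : G)) *
        |tstE (fun ξ : Wd k M Y => vw k.factorial ξ) m j h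
          (z.1 + ∑ a, cf k k.factorial a • ((z.2 a : Y) : G)) - tsb m b j h z.1 z.2|) =
      av (fun z : G => w z * av (fun y : Fin (k + k) → Y =>
        |av (fun x : Fin k → Fin K → Wd k M Y => F z (sbx b j y x)) - av (F z)|)) := by
    intro b
    simp only [e1]
    rw [av_shift2 (fun t : Fin (k + k) → Y => ∑ a, cf k k.factorial a • ((t a : Y) : G))
      (fun z y => w z * |tstE (fun ξ : Wd k M Y => vw k.factorial ξ) m j h z -
        av (fun x : Fin k → Fin K → Wd k M Y => F z (sbx b j y x))|)]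
    congr 1
    funext z
    rw [av_mul_left]
    congr 2
    funext y
    rw [abs_sub_comm]
    rfl
  simp only [e2]
  rw [av_sum]
  rw [← av_mul_right]
  refine av_mono fun z => ?_
  rw [← Finset.mul_sum]
  refine mul_le_mul_of_nonneg_left ?_ (hw z)
  exact blocks M (fun b (y : Fin (k + k) → Y) =>
    av (fun x : Fin k → Fin K → Wd k M Y => F z (sbx b j y x)) - av (F z))
    (h1 k K M G Y hK hY j (F z) (hF01 z))

end PdAux

open PdAux in
theorem pPd (h1 : BsxStmt) (h2 : FsbStmt) (h3 : PdaStmt) : PdStmt := by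
  classical
  intro k n τ hτ
  set B : ℝ := τ / 4 with hB
  have hBpos : 0 < B := by positivity
  obtain ⟨M, hM1, hM⟩ : ∃ M : ℕ, 1 ≤ M ∧ 8 * (n : ℝ) ≤ τ * Real.sqrt M := by
    refine ⟨⌈(8 * (n : ℝ) / τ) ^ 2⌉₊ + 1, by omega, ?_⟩
    have h4 : (8 * (n : ℝ) / τ) ^ 2 ≤ ((⌈(8 * (n : ℝ) / τ) ^ 2⌉₊ + 1 : ℕ) : ℝ) := by
      push_cast
      exact (Nat.le_ceil _).trans (by linarith)
    have h5 : 8 * (n : ℝ) / τ ≤ Real.sqrt ((⌈(8 * (n : ℝ) / τ) ^ 2⌉₊ + 1 : ℕ) : ℝ) :=
      Real.le_sqrt_of_sq_le h4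
    rw [div_le_iff₀ hτ] at h5
    linarith
  refine ⟨min 1 ((B / 4) ^ (2 ^ (k + k))), M, by positivity, hM1, ?_⟩
  intro G _ _ Y K n0 ν hK hY hν hNL L hLn hL
  set η : ℝ := min 1 ((B / 4) ^ (2 ^ (k + k))) with hη
  have : Nonempty Y := hY.to_subtype
  have : Nonempty G := ⟨0⟩
  -- the list of parameters
  obtain ⟨L', hL', hLL'⟩ : ∃ L' : List (ℕ × Fin k × (Fin k → G → (Fin k → Fin K → Wd k M Y) → ℝ)),
      (∀ l ∈ L', AdmW l.2.2) ∧
        L = L'.map (fun l => tstE (fun ξ : Wd k M Y => vw k.factorial ξ) l.1 l.2.1 l.2.2) := by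
    clear hLn
    induction L with
    | nil => exact ⟨[], by simp, by simp⟩
    | cons φ L ih =>
      obtain ⟨L', h3, h4⟩ := ih (fun ψ hψ => hL ψ (List.mem_cons_of_mem _ hψ))
      obtain ⟨m, -, j, h, hh, hφ⟩ := hL φ List.mem_cons_self
      refine ⟨(m, j, h) :: L', fun l hl => ?_, ?_⟩
      · rcases List.mem_cons.1 hl with rfl | hl
        · exact hh
        · exact h3 l hl
      · rw [List.map_cons, ← h4, hφ]
  have hlen : L'.length ≤ n := by
    have : L.length = L'.length := by rw [hLL', List.length_map]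
    omega
  -- values in the unit interval
  have htst : ∀ l ∈ L', ∀ z, 0 ≤ tstE (fun ξ : Wd k M Y => vw k.factorial ξ) l.1 l.2.1 l.2.2 z ∧
      tstE (fun ξ : Wd k M Y => vw k.factorial ξ) l.1 l.2.1 l.2.2 z ≤ 1 := by
    intro l hl z
    have h3 := hL' l hl
    unfold tstE
    exact ⟨av_nonneg fun x => Finset.prod_nonneg fun i _ => ((h3 i _).2 x).1,
      av_le_one fun x => Finset.prod_le_one (fun i _ => ((h3 i _).2 x).1)
        (fun i _ => ((h3 i _).2 x).2)⟩
  have htsb : ∀ b : Fin M, ∀ l ∈ L', ∀ (e : G) (y : Fin (k + k) → Y),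
      0 ≤ tsb l.1 b l.2.1 l.2.2 e y ∧ tsb l.1 b l.2.1 l.2.2 e y ≤ 1 := by
    intro b l hl e y
    have h3 := hL' l hl
    unfold tsb
    exact ⟨av_nonneg fun x => Finset.prod_nonneg fun i _ => ((h3 i _).2 _).1,
      av_le_one fun x => Finset.prod_le_one (fun i _ => ((h3 i _).2 _).1)
        (fun i _ => ((h3 i _).2 _).2)⟩
  -- the mean of ν
  have hmean : av ν ≤ 2 := by
    have h3 := hNL {fun _ => false}
    simp only [Finset.prod_singleton] at h3
    have h4 : av (fun z : G × (Fin (k + k) × Bool → Y) =>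
        ν (z.1 + ∑ a, cf k k.factorial a • ((z.2 (a, false) : Y) : G))) = av ν :=
      av_shift (fun t : Fin (k + k) × Bool → Y =>
        ∑ a, cf k k.factorial a • ((t (a, false) : Y) : G)) ν
    rw [h4] at h3
    have h5 := (abs_le.1 h3).2
    have h6 : η ≤ 1 := min_le_left _ _
    linarith
  have habs : av (fun x => |ν x - 1|) ≤ 3 := by
    calc av (fun x => |ν x - 1|) ≤ av (fun x => ν x + 1) := av_mono fun x => by
          refine (abs_sub _ _).trans ?_
          rw [abs_of_nonneg (hν x), abs_one]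
      _ = av ν + 1 := by rw [av_add, av_const]
      _ ≤ 3 := by linarith
  -- the bound for one block
  set A : ℝ := av (fun x => (ν x - 1) * (L.map (fun φ => φ x)).prod) with hA
  set err : Fin M → ℕ × Fin k × (Fin k → G → (Fin k → Fin K → Wd k M Y) → ℝ) → ℝ := fun b l =>
    av (fun z : G × (Fin (k + k) → Y) =>
      |ν (z.1 + ∑ a, cf k k.factorial a • ((z.2 a : Y) : G)) - 1| *
        |tstE (fun ξ : Wd k M Y => vw k.factorial ξ) l.1 l.2.1 l.2.2
          (z.1 + ∑ a, cf k k.factorial a • ((z.2 a : Y) : G)) - tsb l.1 b l.2.1 l.2.2 z.1 z.2|)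
    with herr
  have hblock : ∀ b : Fin M, |A| ≤ B + (L'.map (err b)).sum := by
    intro b
    have hpda := h3 k K M η B G Y ν hY hNL hBpos.le (by
      rw [← mul_assoc, ← mul_pow]
      have h3 : η ≤ (B / 4) ^ (2 ^ (k + k)) := min_le_right _ _
      calc (2 * 2 : ℝ) ^ (2 ^ (k + k)) * η ≤ (2 * 2 : ℝ) ^ (2 ^ (k + k)) * (B / 4) ^ (2 ^ (k + k)) :=
            mul_le_mul_of_nonneg_left h3 (by positivity)
        _ = B ^ (2 ^ (k + k)) := by
            rw [← mul_pow]
            congr 1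
            ring) b L' hL' (fun _ _ _ => 1)
        (fun a e => ⟨fun _ _ => rfl, fun _ => ⟨zero_le_one, le_rfl⟩⟩)
    simp only [Finset.prod_const_one, one_mul] at hpda
    have hz : A = av (fun z : G × (Fin (k + k) → Y) =>
        (ν (z.1 + ∑ a, cf k k.factorial a • ((z.2 a : Y) : G)) - 1) *
          (L'.map (fun l => tstE (fun ξ : Wd k M Y => vw k.factorial ξ) l.1 l.2.1 l.2.2
            (z.1 + ∑ a, cf k k.factorial a • ((z.2 a : Y) : G)))).prod) := by
      have h3 := av_shift (fun t : Fin (k + k) → Y => ∑ a, cf k k.factorial a • ((t a : Y) : G))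
        (fun x => (ν x - 1) * (L'.map (fun l =>
          tstE (fun ξ : Wd k M Y => vw k.factorial ξ) l.1 l.2.1 l.2.2 x)).prod)
      rw [h3, hA, hLL']
      congr 1
      funext x
      rw [List.map_map]
      rfl
    have hsplit : A = av (fun z : G × (Fin (k + k) → Y) =>
          (ν (z.1 + ∑ a, cf k k.factorial a • ((z.2 a : Y) : G)) - 1) *
          (L'.map (fun l => tsb l.1 b l.2.1 l.2.2 z.1 z.2)).prod) +
        av (fun z : G × (Fin (k + k) → Y) =>
          (ν (z.1 + ∑ a, cf k k.factorial a • ((z.2 a : Y) : G)) - 1) *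
          ((L'.map (fun l => tstE (fun ξ : Wd k M Y => vw k.factorial ξ) l.1 l.2.1 l.2.2
            (z.1 + ∑ a, cf k k.factorial a • ((z.2 a : Y) : G)))).prod -
            (L'.map (fun l => tsb l.1 b l.2.1 l.2.2 z.1 z.2)).prod)) := by
      rw [hz, ← av_add]
      congr 1
      funext z
      ring
    rw [hsplit]
    refine (abs_add_le _ _).trans (add_le_add hpda ?_)
    refine (abs_av_le _).trans ?_
    have hl := av_list L' (fun z : G × (Fin (k + k) → Y) =>
        |ν (z.1 + ∑ a, cf k k.factorial a • ((z.2 a : Y) : G)) - 1|)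
      (fun l z => |tstE (fun ξ : Wd k M Y => vw k.factorial ξ) l.1 l.2.1 l.2.2
          (z.1 + ∑ a, cf k k.factorial a • ((z.2 a : Y) : G)) - tsb l.1 b l.2.1 l.2.2 z.1 z.2|)
    rw [herr, ← hl]
    refine av_mono fun z => ?_
    rw [abs_mul]
    refine mul_le_mul_of_nonneg_left ?_ (abs_nonneg _)
    exact prod_diff L' _ _ (fun l hl => htst l hl _) (fun l hl => htsb b l hl _ _)
  -- the mean over the blocks
  have hsum : (M : ℝ) * |A| ≤ M * B + n * (3 * Real.sqrt M) := by
    have h4 : ∑ _b : Fin M, |A| ≤ ∑ b : Fin M, (B + (L'.map (err b)).sum) :=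
      Finset.sum_le_sum fun b _ => hblock b
    rw [Finset.sum_add_distrib, Finset.sum_const, Finset.sum_const, Finset.card_univ,
      Fintype.card_fin, nsmul_eq_mul, nsmul_eq_mul] at h4
    have h5 : ∑ b : Fin M, (L'.map (err b)).sum ≤ L'.length * (3 * Real.sqrt M) := by
      refine sum_list univ L' err _ fun l hl => ?_
      refine (one h1 h2 hK hY (fun z => |ν z - 1|) (fun z => abs_nonneg _) l.1 l.2.1 l.2.2
        (hL' l hl)).trans ?_
      exact mul_le_mul_of_nonneg_right habs (Real.sqrt_nonneg _)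
    have h6 : (L'.length : ℝ) * (3 * Real.sqrt M) ≤ n * (3 * Real.sqrt M) :=
      mul_le_mul_of_nonneg_right (by exact_mod_cast hlen) (by positivity)
    linarith
  have hs : Real.sqrt M * Real.sqrt M = M := Real.mul_self_sqrt (Nat.cast_nonneg M)
  have hs1 : (0 : ℝ) < Real.sqrt M := Real.sqrt_pos.2 (by exact_mod_cast hM1)
  have hM0 : (0 : ℝ) < M := by exact_mod_cast hM1
  have h7 : (n : ℝ) * (3 * Real.sqrt M) ≤ M * (3 / 8 * τ) := by
    have : 8 * (n : ℝ) * Real.sqrt M ≤ τ * Real.sqrt M * Real.sqrt M :=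
      mul_le_mul_of_nonneg_right hM hs1.le
    rw [mul_assoc τ, hs] at this
    linarith
  have h8 : (M : ℝ) * |A| ≤ M * τ := by
    have h9 : (M : ℝ) * B + M * (3 / 8 * τ) ≤ M * τ := by
      rw [← mul_add]
      exact mul_le_mul_of_nonneg_left (by rw [hB]; linarith) hM0.le
    linarith
  exact le_of_mul_le_mul_left h8 hM0

end Pool.Agent.Lib.MP_9f2731_nt.PL.Rp
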