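import Pool.Agent.Lib.MP_9f2731_nt.PL.Rp.Spec

/-!
MP_9f2731_nt, PL/Rp, module Pda: products of substituted test functions.
-/

namespace Pool.Agent.Lib.MP_9f2731_nt.PL.Rp

open Finset
open Pool.Agent.Lib.MP_9f2731_nt.GP
open Pool.Agent.Lib.MP_9f2731_nt.GP.Rel
open Pool.Agent.Lib.MP_9f2731_nt.PL
open Pool.Agent.Lib.MP_9f2731_nt.QL (mu)
open Pool.Agent.Lib.MP_9f2731_nt.QL.Rw (AdmW)

private theorem pda_swap {α β : Type} [Fintype α] [Fintype β] (g : α → β → ℝ) :
    av (fun a => av (fun b => g a b)) = av (fun b => av (fun a => g a b)) := by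
  unfold av
  rw [← sum_div, ← sum_div, sum_comm, div_div, div_div, mul_comm]

private theorem pda_abs {α : Type} [Fintype α] {g : α → ℝ} {B : ℝ} (hB : 0 ≤ B)
    (h : ∀ a, |g a| ≤ B) : |av g| ≤ B := by
  unfold av
  rcases Nat.eq_zero_or_pos (Fintype.card α) with h0 | h0
  · rw [h0, Nat.cast_zero, div_zero, abs_zero]
    exact hB
  · have h1 : (0 : ℝ) < (Fintype.card α : ℝ) := by exact_mod_cast h0
    rw [abs_div, abs_of_pos h1, div_le_iff₀ h1]
    refine (abs_sum_le_sum_abs _ _).trans ?_
    refine (sum_le_sum fun a _ => h a).trans ?_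
    rw [sum_const, nsmul_eq_mul, card_univ, mul_comm]

private theorem pda_mul {α : Type} [Fintype α] (c : ℝ) (g : α → ℝ) :
    c * av g = av (fun a => c * g a) := by
  unfold av
  rw [← mul_sum, mul_div_assoc]

section aux

variable {G : Type} [AddCommGroup G] {Y : Finset G} {K k M : ℕ}

private theorem pda_ne {i i' : Fin k} : (Fin.natAdd k i' : Fin (k + k)) ≠ Fin.castAdd k i := by
  intro h
  have h1 := congrArg Fin.val h
  rw [Fin.val_natAdd, Fin.val_castAdd] at h1
  have h2 := i.2
  omega

private theorem pda_bs (D : ℕ) (e : G) (j : Fin k) (y y' : Fin (k + k) → Y)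
    (h1 : ∀ i : Fin k, i ≤ j → y' (Fin.castAdd k i) = y (Fin.castAdd k i))
    (h2 : ∀ i : Fin k, j ≤ i → y' (Fin.natAdd k i) = y (Fin.natAdd k i)) :
    bs D e j y' = bs D e j y := by
  unfold bs
  have e1 : ∑ i ∈ univ.filter (fun i : Fin k => i ≤ j), ((y' (Fin.castAdd k i) : Y) : G) =
      ∑ i ∈ univ.filter (fun i : Fin k => i ≤ j), ((y (Fin.castAdd k i) : Y) : G) :=
    sum_congr rfl fun i hi => by rw [h1 i (mem_filter.mp hi).2]
  have e2 : ∑ i ∈ univ.filter (fun i : Fin k => j ≤ i), ((y' (Fin.natAdd k i) : Y) : G) =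
      ∑ i ∈ univ.filter (fun i : Fin k => j ≤ i), ((y (Fin.natAdd k i) : Y) : G) :=
    sum_congr rfl fun i hi => by rw [h2 i (mem_filter.mp hi).2]
  rw [e1, e2]

omit [AddCommGroup G] in
private theorem pda_sbx (b : Fin M) (j i : Fin k) (y y' : Fin (k + k) → Y)
    (x : Fin k → Fin K → Wd k M Y)
    (h : ∀ i' : Fin k, i' ≠ i → y' (Fin.castAdd k i') = y (Fin.castAdd k i') ∧
      y' (Fin.natAdd k i') = y (Fin.natAdd k i')) :
    sbx b j y' x = Function.update (sbx b j y x) i (sbx b j y' x i) := by
  funext i'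
  by_cases hi : i' = i
  · subst hi
    rw [Function.update_self]
  · rw [Function.update_of_ne hi]
    funext t p
    unfold sbx
    rw [(h i' hi).1, (h i' hi).2]

/-- the factor of the narrow coordinate a -/
private noncomputable def fac (j : Fin k) (T : Fin k → ℝ) (a : Fin (k + k)) : ℝ :=
  Fin.addCases (motive := fun _ => ℝ) (fun i => if j < i then T i else 1)
    (fun i => if i < j then T i else 1) a

private theorem fac_left (j : Fin k) (T : Fin k → ℝ) (i : Fin k) :
    fac j T (Fin.castAdd k i) = if j < i then T i else 1 := by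
  unfold fac
  rw [Fin.addCases_left]

private theorem fac_right (j : Fin k) (T : Fin k → ℝ) (i : Fin k) :
    fac j T (Fin.natAdd k i) = if i < j then T i else 1 := by
  unfold fac
  rw [Fin.addCases_right]

private theorem fac_prod (j : Fin k) (T : Fin k → ℝ) :
    ∏ a, fac j T a = ∏ i ∈ univ.erase j, T i := by
  rw [Fin.prod_univ_add, prod_congr rfl (fun i _ => fac_left j T i),
    prod_congr rfl (fun i _ => fac_right j T i), ← prod_mul_distrib,
    ← mul_prod_erase univ _ (mem_univ j), if_neg (lt_irrefl j), one_mul, one_mul]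
  refine prod_congr rfl fun i hi => ?_
  rcases lt_or_gt_of_ne (ne_of_mem_erase hi) with h | h
  · rw [if_neg (not_lt_of_gt h), if_pos h, one_mul]
  · rw [if_pos h, if_neg (not_lt_of_gt h), mul_one]

private theorem fac_mem (j : Fin k) (T : Fin k → ℝ) (hT : ∀ i, 0 ≤ T i ∧ T i ≤ 1)
    (a : Fin (k + k)) : 0 ≤ fac j T a ∧ fac j T a ≤ 1 := by
  refine Fin.addCases (fun i => ?_) (fun i => ?_) a
  · rw [fac_left]
    split_ifs
    · exact hT i
    · exact ⟨zero_le_one, le_refl 1⟩
  · rw [fac_right]
    split_ifs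
    · exact hT i
    · exact ⟨zero_le_one, le_refl 1⟩

/-- the factor of the coordinate a does not depend on this coordinate -/
private theorem fac_ind (m D : ℕ) (b : Fin M) (j : Fin k)
    (h : Fin k → G → (Fin k → Fin K → Wd k M Y) → ℝ) (hA : AdmW h) (e : G)
    (x : Fin k → Fin K → Wd k M Y) (a : Fin (k + k)) (y : Fin (k + k) → Y) (v : Y) :
    fac j (fun i => h i (bs D e j (Function.update y a v) - fr0 D m b j x)
      (sbx b j (Function.update y a v) x)) a =
    fac j (fun i => h i (bs D e j y - fr0 D m b j x) (sbx b j y x)) a := by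
  revert a
  refine fun a => Fin.addCases (motive := fun a => fac j (fun i =>
      h i (bs D e j (Function.update y a v) - fr0 D m b j x)
        (sbx b j (Function.update y a v) x)) a =
      fac j (fun i => h i (bs D e j y - fr0 D m b j x) (sbx b j y x)) a)
    (fun i => ?_) (fun i => ?_) a
  · rw [fac_left, fac_left]
    by_cases hji : j < i
    · rw [if_pos hji, if_pos hji]
      have h1 : ∀ i' : Fin k, i' ≠ i → Function.update y (Fin.castAdd k i) v (Fin.castAdd k i') =
          y (Fin.castAdd k i') := fun i' hi' =>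
        Function.update_of_ne (fun hh => hi' (Fin.castAdd_injective _ _ hh)) _ _
      have h2 : ∀ i' : Fin k, Function.update y (Fin.castAdd k i) v (Fin.natAdd k i') =
          y (Fin.natAdd k i') := fun i' => Function.update_of_ne pda_ne _ _
      rw [pda_bs D e j y _ (fun i' hi' => h1 i' (ne_of_lt (lt_of_le_of_lt hi' hji)))
        (fun i' _ => h2 i'), pda_sbx b j i y _ x (fun i' hi' => ⟨h1 i' hi', h2 i'⟩), (hA i _).1]
    · rw [if_neg hji, if_neg hji]
  · rw [fac_right, fac_right]
    by_cases hji : i < j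
    · rw [if_pos hji, if_pos hji]
      have h1 : ∀ i' : Fin k, i' ≠ i → Function.update y (Fin.natAdd k i) v (Fin.natAdd k i') =
          y (Fin.natAdd k i') := fun i' hi' =>
        Function.update_of_ne (fun hh => hi' (Fin.natAdd_injective _ _ hh)) _ _
      have h2 : ∀ i' : Fin k, Function.update y (Fin.natAdd k i) v (Fin.castAdd k i') =
          y (Fin.castAdd k i') := fun i' => Function.update_of_ne (Ne.symm pda_ne) _ _
      rw [pda_bs D e j y _ (fun i' _ => h2 i')
        (fun i' hi' => h1 i' (ne_of_gt (lt_of_lt_of_le hji hi'))),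
        pda_sbx b j i y _ x (fun i' hi' => ⟨h2 i', h1 i' hi'⟩), (hA i _).1]
    · rw [if_neg hji, if_neg hji]

end aux

theorem pPda (h1 : NbStmt) : PdaStmt := by
  classical
  intro k K M η B G _ _ Y ν hY hN hB hη b L
  induction L with
  | nil =>
    intro _ H hH
    have h2 := h1 (k + k) (cf k k.factorial) η G Y ν hY hN H hH
    simp only [List.map_nil, List.prod_nil, mul_one]
    exact le_of_pow_le_pow_left₀ (pow_ne_zero _ two_ne_zero) hB (h2.trans hη)
  | cons l L ih =>
    intro hL H hH
    obtain ⟨m, j, h⟩ := l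
    have hA : AdmW h := hL (m, j, h) (List.mem_cons_self ..)
    have hL' : ∀ l ∈ L, AdmW l.2.2 := fun l hl => hL l (List.mem_cons_of_mem _ hl)
    -- the family for a fixed x
    let H' : (Fin k → Fin K → Wd k M Y) → Fin (k + k) → G → (Fin (k + k) → Y) → ℝ :=
      fun x a e y => H a e y * fac j (fun i =>
        h i (bs k.factorial e j y - fr0 k.factorial m b j x) (sbx b j y x)) a
    have hH' : ∀ x, ∀ a e, Ind a (H' x a e) ∧ ∀ y, 0 ≤ H' x a e y ∧ H' x a e y ≤ 1 := by
      intro x a e
      constructor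
      · intro y v
        show H a e (Function.update y a v) * _ = H a e y * _
        rw [(hH a e).1 y v, fac_ind m k.factorial b j h hA e x a y v]
      · intro y
        have h4 := (hH a e).2 y
        have h5 := fac_mem j (fun i =>
          h i (bs k.factorial e j y - fr0 k.factorial m b j x) (sbx b j y x))
          (fun i => (hA i _).2 _) a
        exact ⟨mul_nonneg h4.1 h5.1, mul_le_one₀ h4.2 h5.1 h5.2⟩
    have key : ∀ z : G × (Fin (k + k) → Y),
        (ν (z.1 + ∑ a, cf k k.factorial a • ((z.2 a : Y) : G)) - 1) *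
        ((∏ a, H a z.1 z.2) *
          (((m, j, h) :: L).map (fun l => tsb l.1 b l.2.1 l.2.2 z.1 z.2)).prod) =
        av (fun x : Fin k → Fin K → Wd k M Y =>
          (ν (z.1 + ∑ a, cf k k.factorial a • ((z.2 a : Y) : G)) - 1) *
          ((∏ a, H' x a z.1 z.2) * (L.map (fun l => tsb l.1 b l.2.1 l.2.2 z.1 z.2)).prod)) := by
      intro z
      rw [List.map_cons, List.prod_cons]
      have h6 : ∀ x : Fin k → Fin K → Wd k M Y, ∏ a, H' x a z.1 z.2 = (∏ a, H a z.1 z.2) *
          ∏ i ∈ univ.erase j, h i (bs k.factorial z.1 j z.2 - fr0 k.factorial m b j x)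
            (sbx b j z.2 x) := by
        intro x
        show ∏ a, (H a z.1 z.2 * _) = _
        rw [prod_mul_distrib, fac_prod]
      simp only [h6]
      show _ * (_ * (tsb m b j h z.1 z.2 * _)) = _
      unfold tsb
      have h7 : ∀ (A P T R : ℝ), A * (P * (T * R)) = (A * (P * R)) * T := fun A P T R => by ring
      rw [h7, pda_mul]
      congr 1
      funext x
      ring
    simp only [key]
    rw [pda_swap]
    exact pda_abs hB fun x => ih hL' (H' x) (hH' x)

end Pool.Agent.Lib.MP_9f2731_nt.PL.Rp
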