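import Pool.Agent.Lib.MP_9f2731_nt.PL.Rp.Apl
import Pool.Agent.Lib.MP_9f2731_nt.PL.Rp.Bes
import Pool.Agent.Lib.MP_9f2731_nt.PL.Rp.Bsx
import Pool.Agent.Lib.MP_9f2731_nt.PL.Rp.Ce
import Pool.Agent.Lib.MP_9f2731_nt.PL.Rp.Dnw
import Pool.Agent.Lib.MP_9f2731_nt.PL.Rp.Fsb
import Pool.Agent.Lib.MP_9f2731_nt.PL.Rp.Fw
import Pool.Agent.Lib.MP_9f2731_nt.PL.Rp.He
import Pool.Agent.Lib.MP_9f2731_nt.PL.Rp.Law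
import Pool.Agent.Lib.MP_9f2731_nt.PL.Rp.Nb
import Pool.Agent.Lib.MP_9f2731_nt.PL.Rp.Pd
import Pool.Agent.Lib.MP_9f2731_nt.PL.Rp.Pda
import Pool.Agent.Lib.MP_9f2731_nt.PL.Rp.Tb
import Pool.Agent.Lib.MP_9f2731_nt.QL.Rw.DmaA
import Pool.Agent.Lib.MP_9f2731_nt.QL.Rw.PolA
import Pool.Agent.Lib.MP_9f2731_nt.GP.Rel.All

/-!
MP_9f2731_nt, PL/Rp (helper9): the relative Szemeredi theorem with one scale from the density Hales-Jewett theorem.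
-/

namespace Pool.Agent.Lib.MP_9f2731_nt.PL.Rp

open Pool.Agent.Lib.MP_9f2731_nt.GP

theorem rpAll (hD : DhjStmt) : RelPStmt := by
  have aGst := GP.Rel.pGst (GP.Rel.pCs1 GP.Rel.pUpd)
  have aGcs := GP.Rel.pGcs aGst
  have aPr2 := GP.Rel.pPr2 GP.Rel.pUpd GP.Rel.pMrg
  have aCl := GP.Rel.pCl GP.Rel.pCl0 (GP.Rel.pCl1 (GP.Rel.pStf aGcs GP.Rel.pAlt) aPr2
    (GP.Rel.pVar aPr2 GP.Rel.pMrg))
  have aPd := pPd (pBsx pBes) pFsb (pPda pNb)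
  exact pFw aCl (QL.Rw.pDmaA QL.Rw.pPolA) aPd (pDnw hD pLaw (pApl pLaw)) pTb (pCe pTb) pHe

end Pool.Agent.Lib.MP_9f2731_nt.PL.Rp
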