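import Pool.Agent.Lib.MP_9f2731_nt.PL.Rp.Spec
import Pool.Agent.Lib.MP_9f2731_nt.GP.Rel.Mrg

/-!
MP_9f2731_nt, PL/Rp, module Law (helper73): sums of independent values.
-/

namespace Pool.Agent.Lib.MP_9f2731_nt.PL.Rp

open Finset
open Pool.Agent.Lib.MP_9f2731_nt.GP
open Pool.Agent.Lib.MP_9f2731_nt.GP.Rel
open Pool.Agent.Lib.MP_9f2731_nt.PL
open Pool.Agent.Lib.MP_9f2731_nt.QL (mu)
open Pool.Agent.Lib.MP_9f2731_nt.QL.Rw (AdmW)

private theorem Law_one (ι κ G E : Type) [Fintype ι] [Fintype κ] [DecidableEq ι] [DecidableEq κ]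
    [AddCommGroup G] [Fintype E] [Nonempty E] (vl : E → G) (e : ι → κ)
    (he : Function.Injective e) (g : G → ℝ) :
    av (fun x : κ → E => g (∑ i : ι, vl (x (e i)))) =
      av (fun x : ι → E => g (∑ i : ι, vl (x i))) :=
  GP.Rel.pMrg ι κ E e he fun y => g (∑ i, vl (y i))

private theorem Law_cnt (K n : ℕ) (h : n ≤ K) :
    (∑ t : Fin K, if (t : ℕ) < n then 1 else 0) = n := by
  rw [Fin.sum_univ_eq_sum_range (fun t => if t < n then 1 else 0) K, ← sum_filter, sum_const,
    smul_eq_mul, mul_one]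
  have h1 : (range K).filter (fun t => t < n) = range n := by
    ext t
    simp only [mem_filter, mem_range]
    omega
  rw [h1, card_range]

private theorem Law_mu (k m : ℕ) (hk : 1 ≤ k) : ∑ i : Fin k, mu k m i = k * (m + 1) := by
  obtain ⟨k, rfl⟩ : ∃ l, k = l + 1 := ⟨k - 1, by omega⟩
  rw [Fin.sum_univ_succ]
  have h0 : mu (k + 1) m 0 = (k + 1) * m + 1 := if_pos rfl
  have h1 : ∀ i : Fin k, mu (k + 1) m i.succ = 1 := fun i => if_neg (by simp)
  simp only [h0, h1, sum_const, card_univ, Fintype.card_fin, smul_eq_mul]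
  ring

private theorem Law_le (k m K : ℕ) (hk : 1 ≤ k) (hK : k * m + 1 ≤ K) (i : Fin k) :
    mu k m i ≤ K := by
  unfold mu
  split_ifs <;> omega

/-- the available entries -/
private abbrev LawS (k m K : ℕ) : Type := {p : Fin k × Fin K // (p.2 : ℕ) < mu k m p.1}

private theorem Law_card (k m K : ℕ) (hk : 1 ≤ k) (hK : k * m + 1 ≤ K) :
    Fintype.card (LawS k m K) = k * (m + 1) := by
  rw [Fintype.card_subtype, card_filter, Fintype.sum_prod_type]
  rw [← Law_mu k m hk]
  refine sum_congr rfl fun i _ => ?_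
  exact Law_cnt K _ (Law_le k m K hk hK i)

private theorem Law_sum {G E : Type} [AddCommGroup G] (vl : E → G) (k m K : ℕ)
    (x : Fin k → Fin K → E) : ∑ i, incE vl (mu k m i) (x i) =
      ∑ p : LawS k m K, vl (x p.1.1 p.1.2) := by
  have h1 : ∑ i, incE vl (mu k m i) (x i) = ∑ p : Fin k × Fin K,
      if (p.2 : ℕ) < mu k m p.1 then vl (x p.1 p.2) else 0 := by
    rw [Fintype.sum_prod_type]
    rfl
  rw [h1, ← sum_filter]
  exact (sum_subtype_eq_sum_filter (s := (univ : Finset (Fin k × Fin K)))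
    (p := fun p => (p.2 : ℕ) < mu k m p.1) (fun p => vl (x p.1 p.2))).symm.trans
    (by simp)

private theorem Law_curry (k K : ℕ) (V : Type) [Fintype V] (F : (Fin k → Fin K → V) → ℝ) :
    av F = av (fun x : Fin k × Fin K → V => F (fun i t => x (i, t))) := by
  unfold av
  rw [← Equiv.sum_comp (Equiv.curry (Fin k) (Fin K) V) F,
    Fintype.card_congr (Equiv.curry (Fin k) (Fin K) V)]
  rfl

theorem pLaw : LawStmt := by
  refine ⟨Law_one, ?_⟩
  intro G E _ _ _ vl k m K hk hK g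
  have hc := Law_card k m K hk hK
  let φ : Fin (k * (m + 1)) ≃ LawS k m K := (Fintype.equivFinOfCardEq hc).symm
  have h1 := Law_one (Fin (k * (m + 1))) (Fin k × Fin K) G E vl (fun t => (φ t).1)
    (fun a b h => φ.injective (Subtype.ext h)) g
  rw [← h1, Law_curry]
  refine congrArg av (funext fun x => ?_)
  rw [Law_sum]
  exact congrArg g (Equiv.sum_comp φ fun p : LawS k m K => vl (x (p.1.1, p.1.2))).symm

end Pool.Agent.Lib.MP_9f2731_nt.PL.Rp
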