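import Pool.Agent.Lib.MP_9f2731_nt.PL.Defs
import Pool.Agent.Lib.MP_9f2731_nt.QL.Rw.Spec

/-!
MP_9f2731_nt, PL/Rp (helper9): relative Szemeredi theorem with ONE scale: DhjStmt → RelPStmt. Rules: a module
`X.lean` in this directory starts with `import Pool.Agent.Lib.MP_9f2731_nt.PL.Rp.Spec`, `namespace
Pool.Agent.Lib.MP_9f2731_nt.PL.Rp`, `open Finset`, `open Pool.Agent.Lib.MP_9f2731_nt.GP
Pool.Agent.Lib.MP_9f2731_nt.GP.Rel Pool.Agent.Lib.MP_9f2731_nt.PL`, `open Pool.Agent.Lib.MP_9f2731_nt.QL (mu)`,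
`open Pool.Agent.Lib.MP_9f2731_nt.QL.Rw (AdmW)` and proves the theorem `pX`. Statements under Uses are hypotheses, in this
order. All modules are independent. Proved modules of GP/Rel (GP.Rel.Mrg : pMrg, GP.Rel.Upd : pUpd, GP.Rel.Alt : pAlt,
GP.Rel.Cl : see GP/Rel/Cl.lean, ...) and of QL/Rw (QL.Rw.Gb : pGb, QL.Rw.DmaA : pDmaA, ...) can be imported. Many modules
are copies of the module of the same name in QL/Rw, with the finite set X replaced by a type E with a map vl : E → G.
Notation: G a finite abelian group, av = mean, D = k!.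
-/

namespace Pool.Agent.Lib.MP_9f2731_nt.PL.Rp

open Finset
open Pool.Agent.Lib.MP_9f2731_nt.GP
open Pool.Agent.Lib.MP_9f2731_nt.GP.Rel
open Pool.Agent.Lib.MP_9f2731_nt.PL
open Pool.Agent.Lib.MP_9f2731_nt.QL (mu)
open Pool.Agent.Lib.MP_9f2731_nt.QL.Rw (AdmW)

/-! ### Test functions -/

section tst

variable {G : Type} [AddCommGroup G]

/-- test function of type (m,j) -/
noncomputable def tstE {E : Type} [Fintype E] (vl : E → G) {K k : ℕ} (m : ℕ) (j : Fin k)
    (h : Fin k → G → (Fin k → Fin K → E) → ℝ) (z : G) : ℝ :=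
  av (fun x : Fin k → Fin K → E => ∏ i ∈ univ.erase j, h i (z - frE vl m j x) x)

/-- the class of the test functions -/
def TCE {E : Type} [Fintype E] (vl : E → G) (k K n0 : ℕ) : Set (G → ℝ) :=
  {φ | ∃ m : ℕ, m < n0 ∧ ∃ (j : Fin k) (h : Fin k → G → (Fin k → Fin K → E) → ℝ), AdmW h ∧ φ = tstE vl m j h}

/-- distance of two vertices -/
def ds {k : ℕ} (i j : Fin k) : ℕ := (((i : ℕ) : ℤ) - ((j : ℕ) : ℤ)).natAbs

/-- the component (i,t,p) is replaced by the substitution of type (b,j) -/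
def Rep {k K M : ℕ} (b : Fin M) (j i : Fin k) (t : Fin K) (p : Fin k × Fin M) : Prop :=
  i ≠ j ∧ (t : ℕ) = 0 ∧ p.2 = b ∧ (p.1 : ℕ) + 1 = ds i j

instance {k K M : ℕ} (b : Fin M) (j i : Fin k) (t : Fin K) (p : Fin k × Fin M) : Decidable (Rep b j i t p) := by
  unfold Rep
  infer_instance

/-- substitution: in the entry 0 of the vertex i ≠ j the component with the coefficient D / |i - j| in the block b is
replaced by the narrow element y_(i,+) if i > j and by y_(i,-) if i < j -/
def sbx {Y : Finset G} {K k M : ℕ} (b : Fin M) (j : Fin k) (y : Fin (k + k) → Y)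
    (x : Fin k → Fin K → Wd k M Y) : Fin k → Fin K → Wd k M Y :=
  fun i t p => if Rep b j i t p then (if j < i then y (Fin.castAdd k i) else y (Fin.natAdd k i)) else x i t p

/-- the form frE without the components which are replaced -/
def fr0 {Y : Finset G} {K k M : ℕ} (D m : ℕ) (b : Fin M) (j : Fin k) (x : Fin k → Fin K → Wd k M Y) : G :=
  ∑ i : Fin k, (((i : ℕ) : ℤ) - ((j : ℕ) : ℤ)) • ∑ t : Fin K, if (t : ℕ) < mu k m i then
    ∑ p : Fin k × Fin M, (if Rep b j i t p then 0 else (D / ((p.1 : ℕ) + 1)) • ((x i t p : Y) : G)) else 0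

/-- the base point after the substitution -/
def bs {Y : Finset G} {k : ℕ} (D : ℕ) (e : G) (j : Fin k) (y : Fin (k + k) → Y) : G :=
  e + D • ∑ i ∈ univ.filter (fun i : Fin k => i ≤ j), ((y (Fin.castAdd k i) : Y) : G) -
    D • ∑ i ∈ univ.filter (fun i : Fin k => j ≤ i), ((y (Fin.natAdd k i) : Y) : G)

/-- the test function after the substitution: e is the base point, y the narrow variables -/
noncomputable def tsb {Y : Finset G} {K k M : ℕ} (m : ℕ) (b : Fin M) (j : Fin k)
    (h : Fin k → G → (Fin k → Fin K → Wd k M Y) → ℝ) (e : G) (y : Fin (k + k) → Y) : ℝ :=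
  av (fun x : Fin k → Fin K → Wd k M Y => ∏ i ∈ univ.erase j,
    h i (bs k.factorial e j y - fr0 k.factorial m b j x) (sbx b j y x))

end tst

/-! ### Bessel's inequality -/

/-- Module Bes (conditional expectations on disjoint blocks). Uses: nothing. Proof. For B ⊆ ι write mix B y x i = y i for i ∈ B and x i otherwise. (a) For every H: av over y of av over x of H(mix B y x) = av H (the map
(y,x) ↦ (mix B y x, mix B x y) is a bijection of pairs). (b) F0 = F - av F, g b y = av over x of F0(mix (B b) y x) (= av over x of F(..) - av F) depends only on the coordinates in B b: g b (mix (B b) y x) = g b y, and g b (mix (B b') y x) = g b x for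
b ≠ b' (B b and B b' are disjoint). So av (F0 * g b) = av_y av_x F0(mix (B b) y x) g b y = av (g b)^2; for b ≠ b': av (g b * g b') = av_y av_x g b (mix (B b) y x) g b' (mix (B b) y x) = av_y (g b y) * av_x (g b' x) = 0, as av (g b) = av F0 = 0 by (a).
Hence 0 ≤ av (F0 - ∑ g b)^2 = av F0^2 - 2 ∑ av (F0 g b) + ∑_{b,b'} av (g b g b') = av F0^2 - ∑ av (g b)^2, and av F0^2 ≤ 1. -/
def BesStmt : Prop :=
  ∀ (ι V : Type) [Fintype ι] [DecidableEq ι] [Fintype V] [Nonempty V] (M : ℕ) (B : Fin M → Finset ι),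
    (∀ b b', b ≠ b' → Disjoint (B b) (B b')) → ∀ F : (ι → V) → ℝ, (∀ x, 0 ≤ F x ∧ F x ≤ 1) →
    ∑ b, av (fun y : ι → V => (av (fun x : ι → V => F (fun i => if i ∈ B b then y i else x i)) - av F) ^ 2) ≤ 1

/-- Module Bsx (Bessel's inequality for the substitutions). Uses: Bes (GP.Rel.pMrg is proved). Proof. ι = Fin k × Fin K × (Fin k × Fin M), x : Fin k → Fin K → Wd k M Y corresponds to X : ι → Y, X (i,t,p) = x i t p (bijection, means are preserved);
B b = the set of the (i,t,p) with Rep b j i t p: disjoint for different b (p.2 = b). For Z : ι → Y and y : Fin (k + k) → Y with y (castAdd i) = Z (i,0,(ds i j - 1,b)) for j < i and y (natAdd i) = Z (i,0,(ds i j - 1,b)) for i < j, sbx b j y x corresponds to mix (B b) Z X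
(for i ≠ j: 1 ≤ ds i j ≤ k - 1, so there is exactly one component (i,0,(c,b)) with c + 1 = ds i j; K ≥ 1). The expression av_x F(sbx b j y x) depends only on the values y(castAdd i), i > j, and y(natAdd i), i < j (k - 1 coordinates). So the mean over y : Fin (k + k) → Y of a function of
these values is the mean over Z : ι → Y of the same function of the Z (i,0,(ds i j - 1,b)) (Mrg for the two injections of {i // i ≠ j} into Fin (k + k) and into ι). Then Bes. -/
def BsxStmt : Prop :=
  ∀ (k K M : ℕ) (G : Type) [AddCommGroup G] (Y : Finset G), 1 ≤ K → Y.Nonempty →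
    ∀ (j : Fin k) (F : (Fin k → Fin K → Wd k M Y) → ℝ), (∀ x, 0 ≤ F x ∧ F x ≤ 1) →
    ∑ b : Fin M, av (fun y : Fin (k + k) → Y =>
      (av (fun x : Fin k → Fin K → Wd k M Y => F (sbx b j y x)) - av F) ^ 2) ≤ 1

/-- Module Fsb (the forms after the substitution). Uses: nothing. Proof. In frE (vw D) m j (sbx b j y x) = ∑_i (i - j) • ∑_{t < mu} ∑_p (D / (p.1 + 1)) • (sbx b j y x i t p) split the inner sum into the components with and without Rep b j i t p. The part without Rep is fr0. For i ≠ j there is exactly one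
(t,p) with Rep (t = 0 < mu k m i, K ≥ 1; p = (ds i j - 1, b), 1 ≤ ds i j ≤ k - 1), its contribution is (i - j) • (D / ds i j) • y_(i,±) = D • y_(i,+) for i > j and - D • y_(i,-) for i < j (ds i j divides D = k!). So frE = fr0 + D • ∑_{i>j} y_(i,+) - D • ∑_{i<j} y_(i,-). And ∑_a cf a • y a =
D • ∑_i y_(i,+) - D • ∑_i y_(i,-) (Fin.sum_univ_add). Subtract: what remains is e + D • ∑_{i≤j} y_(i,+) - D • ∑_{i≥j} y_(i,-) - fr0. -/
def FsbStmt : Prop :=
  ∀ (k K M m : ℕ) (G : Type) [AddCommGroup G] (Y : Finset G), 1 ≤ K →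
    ∀ (b : Fin M) (j : Fin k) (y : Fin (k + k) → Y) (x : Fin k → Fin K → Wd k M Y) (e : G),
    e + ∑ a, cf k k.factorial a • ((y a : Y) : G) -
        frE (fun ξ : Wd k M Y => vw k.factorial ξ) m j (sbx b j y x) =
      bs k.factorial e j y - fr0 k.factorial m b j x

/-! ### Narrow scale -/

/-- Module Nb (compare QL/Rw/Nb.lean). Uses: nothing (QL.Rw.pGb and GP.Rel.pAlt are proved: import Pool.Agent.Lib.MP_9f2731_nt.QL.Rw.Gb and Pool.Agent.Lib.MP_9f2731_nt.GP.Rel.Alt). Proof. Gb with u e y = ν(e + ∑ c a • y a) - 1. The right mean is av ∏_ω (ν(..ω) - 1), by Alt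
(B = univ, Γ = 1; every subset A is a case of NLG) at most 2^(2^r) η in absolute value. -/
def NbStmt : Prop :=
  ∀ (r : ℕ) (c : Fin r → ℤ) (η : ℝ) (G : Type) [AddCommGroup G] [Fintype G] (Y : Finset G) (ν : G → ℝ), Y.Nonempty →
    NLG c η Y ν → ∀ H : Fin r → G → (Fin r → Y) → ℝ,
    (∀ a e, Ind a (H a e) ∧ ∀ y, 0 ≤ H a e y ∧ H a e y ≤ 1) →
    |av (fun z : G × (Fin r → Y) =>
      (ν (z.1 + ∑ a, c a • ((z.2 a : Y) : G)) - 1) * ∏ a, H a z.1 z.2)| ^ (2 ^ r) ≤
      2 ^ (2 ^ r) * (2 ^ (2 ^ r) * η)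

/-- Module Pda (products of substituted test functions; compare QL/Rw/Pda.lean). Uses: Nb. Proof. Induction on the list L, for all families H at the same time. Empty list: Nb with r = k + k, c = cf k k!. L = (m,j,h) :: L': the factor tsb m b j h e y is a mean over x; exchange it with the mean over (e,y). For a fixed x let
H' a e y = H a e y * φ a e y, where φ a e y = h i (bs D e j y - fr0 D m b j x) (sbx b j y x) if a = castAdd k i with i > j or a = natAdd k i with i < j, and φ a e y = 1 for the other a (every a is castAdd k i or natAdd k i for one i; the product over a of the φ a is the product over i ≠ j of the h i). φ a is independent of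
the coordinate a: bs D e j y does not contain y (castAdd k i) for i > j nor y (natAdd k i) for i < j; in sbx b j y x this coordinate of y is used only at the vertex i, and h i is independent of the vertex i (AdmW). So for every x the mean is ≤ B in absolute value by induction. -/
def PdaStmt : Prop :=
  ∀ (k K M : ℕ) (η B : ℝ) (G : Type) [AddCommGroup G] [Fintype G] (Y : Finset G) (ν : G → ℝ),
    Y.Nonempty → NLG (cf k k.factorial) η Y ν → 0 ≤ B →
    2 ^ (2 ^ (k + k)) * (2 ^ (2 ^ (k + k)) * η) ≤ B ^ (2 ^ (k + k)) → ∀ b : Fin M,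
    ∀ (L : List (ℕ × Fin k × (Fin k → G → (Fin k → Fin K → Wd k M Y) → ℝ))), (∀ l ∈ L, AdmW l.2.2) →
    ∀ H : Fin (k + k) → G → (Fin (k + k) → Y) → ℝ, (∀ a e, Ind a (H a e) ∧ ∀ y, 0 ≤ H a e y ∧ H a e y ≤ 1) →
    |av (fun z : G × (Fin (k + k) → Y) => (ν (z.1 + ∑ a, cf k k.factorial a • ((z.2 a : Y) : G)) - 1) *
      ((∏ a, H a z.1 z.2) * (L.map (fun l => tsb l.1 b l.2.1 l.2.2 z.1 z.2)).prod))| ≤ B

/-- Module Pd (products of test functions; compare QL/Rw/Pd.lean, whose auxiliary lemmas can be copied). Uses: Bsx, Fsb, Pda. Proof. B = τ/4, η = min 1 ((B/4)^(2^(k+k))), M with M ≥ 1 and 8 n ≤ τ sqrt M, i.e. n / sqrt M ≤ τ/8. Write the elements of L as tstE vl m j h (m < n0), l = (m,j,h).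
For every block b the mean over z of (ν z - 1) ∏ L(z) is the mean over (e,y), y : Fin (k + k) → Y, of the same expression at z = e + ∑ cf a • y a (for a fixed y a bijection of G). For l put F^z x = ∏_{i≠j} h i (z - frE m j x) x, in [0,1]; tstE .. z = av F^z and by Fsb tsb m b j h e y = av over x of F^z (sbx b j y x).
|∏_l tstE(z) - ∏_l tsb(e,y)| ≤ ∑_l |tstE(z) - tsb(e,y)| (numbers in [0,1]). So |av (ν - 1) ∏ L| ≤ |av over (e,y) of (ν(z) - 1) ∏ tsb| + ∑_l av over (z,y) of |ν z - 1| |av F^z - av_x F^z(sbx b j y x)|; the first term is ≤ B by Pda (H = 1). Take the mean of the second term over b: for fixed z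
(1/M) ∑_b av_y |..| ≤ ((1/M) ∑_b av_y |..|^2)^(1/2) ≤ M^(-1/2) by Cauchy-Schwarz and Bsx. So the mean over b of the second term is ≤ n M^(-1/2) av |ν - 1| ≤ 3 n M^(-1/2) ≤ 3τ/8 (av ν ≤ 1 + η ≤ 2 by NLG for the set A = {fun _ => false}; ν ≥ 0). Total ≤ τ/4 + 3τ/8 ≤ τ. -/
def PdStmt : Prop :=
  ∀ (k n : ℕ) (τ : ℝ), 0 < τ → ∃ (η : ℝ) (M : ℕ), 0 < η ∧ 1 ≤ M ∧
    ∀ (G : Type) [AddCommGroup G] [Fintype G] (Y : Finset G) (K n0 : ℕ) (ν : G → ℝ),
    1 ≤ K → Y.Nonempty → (∀ x, 0 ≤ ν x) → NLG (cf k k.factorial) η Y ν →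
    ∀ L : List (G → ℝ), L.length ≤ n → (∀ φ ∈ L, φ ∈ TCE (fun ξ : Wd k M Y => vw k.factorial ξ) k K n0) →
      |av (fun x => (ν x - 1) * (L.map (fun φ => φ x)).prod)| ≤ τ

/-! ### Copies of the modules of QL/Rw -/

/-- Module Tb (basic facts; copy of QL/Rw/Tb.lean). Uses: nothing. Proof. (1) means of products of numbers in [0,1]. (2) n0 ≥ 1, k ≥ 1: h = 1. (3) av over z of u z * av over x of F(z - frE m j x, x): exchange the two means and substitute z = e + frE m j x (for a fixed x a bijection of G: Equiv.addRight).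
(4) the coefficient of the vertex j in frE m j is j - j = 0. -/
def TbStmt : Prop :=
  ∀ (G : Type) [AddCommGroup G] [Fintype G] (E : Type) [Fintype E] [Nonempty E] (vl : E → G) (K k n0 : ℕ),
    (∀ φ ∈ TCE vl k K n0, ∀ z, 0 ≤ φ z ∧ φ z ≤ 1) ∧
    (1 ≤ n0 → 1 ≤ k → (fun _ => (1 : ℝ)) ∈ TCE vl k K n0) ∧
    (∀ (m : ℕ) (j : Fin k) (h : Fin k → G → (Fin k → Fin K → E) → ℝ) (u : G → ℝ),
      av (fun z => u z * tstE vl m j h z) =
        av (fun e : G => av (fun x : Fin k → Fin K → E =>
          u (e + frE vl m j x) * ∏ i ∈ univ.erase j, h i e x))) ∧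
    ∀ (m : ℕ) (j : Fin k) (x : Fin k → Fin K → E) (v : Fin K → E),
      frE vl m j (Function.update x j v) = frE vl m j x

/-- Module Law (sums of independent values; copy of QL/Rw/Law.lean). Uses: nothing (GP.Rel.pMrg is proved). Proof. (1) Mrg for the injection e : ι → κ and the function x ↦ g (∑ i, vl (x i)). (2) By currying (Fin k → Fin K → E) ≃ (Fin k × Fin K → E); ∑_i incE (mu k m i) (x i) is the sum over
the entries (i,t) with t < mu k m i; the number of these pairs is (k m + 1) + (k - 1) = k (m+1) (all k m + 1 ≤ K are available; k ≥ 1), so by (1) for the inclusion of these pairs and by (1) again for a bijection with Fin (k (m+1)) the mean depends on k (m + 1) only. -/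
def LawStmt : Prop :=
  (∀ (ι κ G E : Type) [Fintype ι] [Fintype κ] [DecidableEq ι] [DecidableEq κ] [AddCommGroup G] [Fintype E]
    [Nonempty E] (vl : E → G) (e : ι → κ), Function.Injective e → ∀ g : G → ℝ,
    av (fun x : κ → E => g (∑ i : ι, vl (x (e i)))) = av (fun x : ι → E => g (∑ i : ι, vl (x i)))) ∧
  ∀ (G E : Type) [AddCommGroup G] [Fintype E] [Nonempty E] (vl : E → G) (k m K : ℕ), 1 ≤ k → k * m + 1 ≤ K →
    ∀ g : G → ℝ, av (fun x : Fin k → Fin K → E => g (∑ i, incE vl (mu k m i) (x i))) =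
      av (fun x : Fin (k * (m + 1)) → E => g (∑ t, vl (x t)))

/-- Module Apl (progressions; copy of QL/Rw/Apl.lean). Uses: Law. Proof. frE m j x = B(x) - j • d(x), B(x) = ∑ i • incE (mu k m i) (x i), d(x) = ∑ incE (mu k m i) (x i). For fixed x substitute e' = e + B(x) - (k-1) • d(x) (a bijection of G): e + frE m j x = e' + (k-1-j) • d(x), and
the product over j is the product over i = k-1-j (Fin.rev). So the left side is the mean over e' and x of a function of (e', d(x)); Law (second part) for g d = av over e' of ∏ F(e' + i • d). -/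
def AplStmt : Prop :=
  ∀ (G : Type) [AddCommGroup G] [Fintype G] (E : Type) [Fintype E] [Nonempty E] (vl : E → G) (k m K : ℕ),
    1 ≤ k → k * m + 1 ≤ K → ∀ F : G → ℝ,
    av (fun e : G => av (fun x : Fin k → Fin K → E => ∏ j : Fin k, F (e + frE vl m j x))) =
      av (fun x : Fin (k * (m + 1)) → E => av (fun e : G =>
        ∏ i : Fin k, F (e + (i : ℕ) • ∑ t, vl (x t))))

/-- Module Dnw (dense theorem; copy of QL/Rw/Dnw.lean). Uses: DhjStmt, Law, Apl. Proof. δ ≤ 1 WLOG (for δ > 1 nothing satisfies the hypothesis). n from DhjStmt for (k, δ/4), n0 = n + 1, c = (δ/2)^k (δ/4)/(k+1)^n. A = {e : f e ≥ δ/2}, card A ≥ (δ/2) card G. For e in G and v : Fin n → Fin k → E put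
σ_t = ∑_c vl (v t c) and A_{e,v} = {w : Fin n → Fin k | e + ∑_t (w t) • σ_t ∈ A}. For fixed w, v the map e ↦ e + .. is a bijection, so the mean of card A_{e,v}/k^n is ≥ δ/2, hence card A_{e,v} ≥ (δ/4) k^n for a proportion ≥ δ/4 of the pairs (e,v). (If n = 0 the only word is empty; DhjStmt then gives a line
with a wildcard in Fin 0, impossible, so n ≥ 1.) For such a pair take the word w : Fin n → Option (Fin k) of a line in A_{e,v}, s = number of wildcards, 1 ≤ s ≤ n: e + ∑_{w t = some a} a • σ_t + i • ∑_{w t = none} σ_t ∈ A for all i < k. Pigeonhole over the (k+1)^n words: for one word w this holds for a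
proportion ≥ (δ/4)/(k+1)^n of the pairs (e,v). For this w substitute e' = e + ∑_{w t = some a} a • σ_t for fixed v: the proportion of (e',v) with e' + i • d ∈ A for all i < k, d = ∑_{w t = none} ∑_c vl (v t c). By Law (first part: the k s entries of v at the wildcards) d is distributed as the sum of k s
independent values. m = s - 1 < n0: by Apl (F = indicator of A) this proportion is the left side of Apl for the indicator of A, and f ≥ (δ/2) times the indicator. -/
def DnwStmt : Prop :=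
  ∀ (k : ℕ) (δ : ℝ), 1 ≤ k → 0 < δ → ∃ (c : ℝ) (n0 : ℕ), 0 < c ∧ 1 ≤ n0 ∧
    ∀ (G : Type) [AddCommGroup G] [Fintype G] (E : Type) [Fintype E] [Nonempty E] (vl : E → G),
    ∀ f : G → ℝ, (∀ x, 0 ≤ f x ∧ f x ≤ 1) → δ * (Fintype.card G : ℝ) ≤ ∑ x, f x →
    ∃ m : ℕ, m < n0 ∧ c ≤ av (fun e : G => av (fun x : Fin k → Fin (k * n0 + 1) → E =>
      ∏ j : Fin k, f (e + frE vl m j x)))

open Classical in
/-- Module Ce (copy of QL/Rw/Ce.lean). Uses: Tb. Proof. u = f - f'. The set B of the e for which Cut fails is the union of B⁺ (some h with av (u(e + frE m j x) ∏_{i≠j} h i x) > τ) and B⁻ (< -τ). For B⁺ choose such an h^e for e ∈ B⁺ and put h i e = h^e i for i ≠ j, e ∈ B⁺, h i e = 0 for e ∉ B⁺ and i ≠ j,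
h j e = 1: AdmW (Cut only quantifies over h with the property for i ≠ j). As k ≥ 2 there is an i ≠ j and the product vanishes for e ∉ B⁺. By Tb (third part) av (u * tstE m j h) = (1/card G) ∑_{e ∈ B⁺} (> τ), and it is ≤ ε, so card B⁺ τ ≤ ε card G. The same for B⁻ with the sign reversed. -/
def CeStmt : Prop :=
  ∀ (G : Type) [AddCommGroup G] [Fintype G] (E : Type) [Fintype E] [Nonempty E] (vl : E → G) (K k n0 : ℕ)
    (ε τ : ℝ) (f f' : G → ℝ),
    2 ≤ k → 0 < τ → (∀ φ ∈ TCE vl k K n0, |av (fun x => (f x - f' x) * φ x)| ≤ ε) →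
    ∀ m : ℕ, m < n0 → ∀ j : Fin k,
    ((univ.filter (fun e : G => ¬ Cut j τ (fun x : Fin k → Fin K → E =>
      f (e + frE vl m j x) - f' (e + frE vl m j x)))).card : ℝ) ≤ 2 * ε / τ * (Fintype.card G : ℝ)

open Classical in
/-- Module He (copy of QL/Rw/He.lean). Uses: nothing. Proof. If HLFC fails at e then |mean - 1| > η1 for some S with p.2 p.1 = false for all p ∈ S. For every S Markov: the number of e with |..| > η1 is ≤ (η/η1) card G by WLE. There are 2^(k 2^k) sets S (card (Fin k × (Fin k → Bool)) = k 2^k). -/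
def HeStmt : Prop :=
  ∀ (G : Type) [AddCommGroup G] [Fintype G] (E : Type) [Fintype E] [Nonempty E] (vl : E → G) (k n0 : ℕ)
    (η η1 : ℝ) (ν : G → ℝ),
    0 < η1 → 0 ≤ η → WLE vl k n0 η ν → ∀ m : ℕ, m < n0 →
    ((univ.filter (fun e : G => ¬ HLFC η1 (fun (j : Fin k) (x : Fin k → Fin (k * n0 + 1) → E) =>
      ν (e + frE vl m j x)))).card : ℝ) ≤ 2 ^ (k * 2 ^ k) * (η / η1) * (Fintype.card G : ℝ)

/-- Module Fw (the relative theorem; compare QL/Rw/Fw.lean). Uses: GP.Rel.ClStmt, QL.Rw.DmaAStmt, Pd, Dnw, Tb, Ce, He. Proof. (c0, n0) from Dnw for (k, δ/2) and we may take c0 ≤ 1 (decrease it); K = k n0 + 1; (η1, τ1) from Cl for (k, c0/4); ε = min (δ/2) (τ1 c0/(32 k)); (n, τ) from DmaA for ε; (η2, M) from Pd for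
(k, n, τ); η = min η2 (η1 c0/(16 2^(k 2^k))); c = c0/4. Given Y, ν, f: E = Wd k M Y (nonempty), vl = vw k!; Φ = TCE vl k K n0; Pd and Tb are the hypotheses of DmaA, which gives f'. As 1 ∈ Φ: av f' ≥ δ - ε ≥ δ/2. Dnw: m with c0 ≤ av_e av_x ∏ f'(e + frE m j x). NLG is monotone in η. Bad e: HLFC η1 fails
(He: proportion ≤ c0/16) or Cut j τ1 fails for some j (Ce: proportion ≤ k 2 ε/τ1 ≤ c0/16). For the other e Cl (V = Fin K → E, ν j x = ν (e + frE m j x), g j x = f (e + frE m j x), g' j x = f' (e + frE m j x), all Ind j by Tb, fourth part) gives av_x ∏ f ≥ av_x ∏ f' - c0/4. For the bad e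
av_x ∏ f ≥ 0 ≥ av_x ∏ f' - 1. So the mean over e is ≥ c0 - c0/8 - c0/4 ≥ c. -/
def FwStmt : Prop := RelPStmt

end Pool.Agent.Lib.MP_9f2731_nt.PL.Rp
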